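import Pool.Agent.Lib.MP_9f2731_nt.GP.Dhj.Spec

/-!
MP_9f2731_nt, GP/Dhj, module Cmp (helper44): comparison with hh.
-/

namespace Pool.Agent.Lib.MP_9f2731_nt.GP.Dhj

open Finset

open Classical in
/-- indicator -/
private noncomputable def cmp_ind (P : Prop) : ℝ := if P then 1 else 0

private theorem cmp_pr {X : Type} [Fintype X] (P : X → Prop) :
    pr P = mn (fun x => cmp_ind (P x)) := rfl

private theorem cmp_ind01 (P : Prop) : 0 ≤ cmp_ind P ∧ cmp_ind P ≤ 1 := by
  unfold cmp_ind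
  split_ifs <;> norm_num

private theorem cmp_mnprod {X Y : Type} [Fintype X] [Fintype Y] (f : X × Y → ℝ) :
    mn f = mn (fun x => mn (fun y => f (x, y))) := by
  unfold mn
  rw [Fintype.sum_prod_type, Fintype.card_prod, ← Finset.sum_div, div_div]
  push_cast
  rw [mul_comm]

private theorem cmp_equiv {X Y : Type} [Fintype X] [Fintype Y] (e : X ≃ Y) (f : Y → ℝ) :
    mn (fun x => f (e x)) = mn f := by
  unfold mn
  rw [e.sum_comp f, Fintype.card_congr e]

private theorem cmp_abs {X : Type} [Fintype X] (f g h : X → ℝ) (H : ∀ x, |f x - g x| ≤ h x) :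
    |mn f - mn g| ≤ mn h := by
  unfold mn
  have hc : (0 : ℝ) ≤ (Fintype.card X : ℝ) := Nat.cast_nonneg _
  rw [← sub_div, ← Finset.sum_sub_distrib, abs_div, abs_of_nonneg hc]
  refine div_le_div_of_nonneg_right ?_ (Nat.cast_nonneg _)
  exact (Finset.abs_sum_le_sum_abs _ _).trans (Finset.sum_le_sum fun x _ => H x)

private theorem cmp_const {X : Type} [Fintype X] [Nonempty X] (c : ℝ) :
    mn (fun _ : X => c) = c := by
  unfold mn
  have h : (Fintype.card X : ℝ) ≠ 0 := by exact_mod_cast Fintype.card_ne_zero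
  rw [Finset.sum_const, Finset.card_univ, nsmul_eq_mul]
  field_simp

/-- splitting of the places -/
private def cmp_split {ι ρ V : Type} [DecidableEq ρ] (J : Finset ρ) :
    V × (ρ → ι) ≃ ({l // l ∈ J} → ι) × (V × ({l // ¬ l ∈ J} → ι)) where
  toFun p := (fun l => p.2 l.1, (p.1, fun l => p.2 l.1))
  invFun q := (q.2.1, fun l => if h : l ∈ J then q.1 ⟨l, h⟩ else q.2.2 ⟨l, h⟩)
  left_inv := by
    rintro ⟨x, T⟩
    refine Prod.ext rfl ?_
    funext l
    by_cases h : l ∈ J
    · simp [h]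
    · simp [h]
  right_inv := by
    rintro ⟨T1, x, T2⟩
    refine Prod.ext ?_ (Prod.ext rfl ?_)
    · funext l
      simp [l.2]
    · funext l
      simp [l.2]

private theorem cmp_pt {ι ρ : Type} [DecidableEq ρ] {k : ℕ} (J : Finset ρ)
    (y0 : ρ → Fin (k + 1)) (x : ι → Fin (k + 1)) (T : ρ → ι) (hT : Function.Injective T)
    (c : Fin (k + 1)) :
    pt x T (fun l => if l ∈ J then c else y0 l) =
      pt (pt x (fun l : {l // ¬ l ∈ J} => T l.1) (fun l => y0 l.1))
        (fun l : {l // l ∈ J} => T l.1) (fun _ => c) := by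
  have hT1 : Function.Injective (fun l : {l // l ∈ J} => T l.1) :=
    fun a b hab => Subtype.ext (hT hab)
  have hT2 : Function.Injective (fun l : {l // ¬ l ∈ J} => T l.1) :=
    fun a b hab => Subtype.ext (hT hab)
  funext t
  by_cases h : ∃ l, T l = t
  · obtain ⟨l, rfl⟩ := h
    rw [pt_apply x hT]
    by_cases hl : l ∈ J
    · rw [if_pos hl]
      exact (pt_apply (pt x (fun l : {l // ¬ l ∈ J} => T l.1) (fun l => y0 l.1)) hT1
        (fun _ => c) ⟨l, hl⟩).symm
    · rw [if_neg hl, pt_out]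
      · exact (pt_apply x hT2 (fun l => y0 l.1) ⟨l, hl⟩).symm
      · rintro ⟨l', hl'⟩
        have h2 : l'.1 = l := hT hl'
        exact hl (h2 ▸ l'.2)
  · rw [pt_out x T _ t h, pt_out, pt_out]
    · rintro ⟨l, hl⟩
      exact h ⟨l.1, hl⟩
    · rintro ⟨l, hl⟩
      exact h ⟨l.1, hl⟩

private theorem cmp_ptc {ι ρ ρ' α : Type} (x : ι → α) (T : ρ → ι) (e : ρ' ≃ ρ) (c : α) :
    pt x (fun l => T (e l)) (fun _ => c) = pt x T (fun _ => c) := by
  classical
  funext t
  unfold pt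
  by_cases h : ∃ l, T l = t
  · have h' : ∃ l, T (e l) = t := by
      obtain ⟨l, hl⟩ := h
      exact ⟨e.symm l, by rw [e.apply_symm_apply]; exact hl⟩
    rw [dif_pos h, dif_pos h']
  · have h' : ¬ ∃ l, T (e l) = t := by
      rintro ⟨l, hl⟩
      exact h ⟨e l, hl⟩
    rw [dif_neg h, dif_neg h']

private theorem cmp_hh {ι ρ : Type} [Fintype ι] [DecidableEq ι] [DecidableEq ρ] {k : ℕ}
    (J : Finset ρ) (A : (ι → Fin (k + 1)) → Prop) :
    hh A J.card = pr (fun q : ({l // l ∈ J} → ι) × (ι → Fin (k + 1)) =>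
      ∀ i : Fin k, A (pt q.2 q.1 (fun _ => i.castSucc))) := by
  classical
  let e : (ι → Fin (k + 1)) × (Fin J.card → ι) ≃ ({l // l ∈ J} → ι) × (ι → Fin (k + 1)) :=
    (Equiv.prodComm _ _).trans
      (Equiv.prodCongr (Equiv.arrowCongr J.equivFin.symm (Equiv.refl ι)) (Equiv.refl _))
  unfold hh
  rw [cmp_pr, cmp_pr, ← cmp_equiv e]
  congr 1
  funext p
  have h : ∀ c : Fin (k + 1), pt p.1 p.2 (fun _ => c) = pt (e p).2 (e p).1 (fun _ => c) := by
    intro c
    exact (cmp_ptc p.1 p.2 J.equivFin c).symm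
  simp only [h]

theorem pCmp (hNin : NinStmt) (hPt : PtStmt) : CmpStmt := by
  classical
  intro k ι ρ _ _ _ _ _ J y0 A
  have hN : (0 : ℝ) < (Fintype.card ι : ℝ) := by exact_mod_cast Fintype.card_pos
  -- the three functions
  let F : (ι → Fin (k + 1)) × (ρ → ι) → ℝ := fun p =>
    cmp_ind (∀ i : Fin k, A (pt p.1 p.2 (fun l => if l ∈ J then i.castSucc else y0 l)))
  let g : ({l // l ∈ J} → ι) → (ι → Fin (k + 1)) → ℝ := fun T1 x =>
    cmp_ind (∀ i : Fin k, A (pt x T1 (fun _ => i.castSucc)))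
  let G : ({l // l ∈ J} → ι) × ((ι → Fin (k + 1)) × ({l // ¬ l ∈ J} → ι)) → ℝ := fun q =>
    g q.1 (pt q.2.1 q.2.2 (fun l => y0 l.1))
  have hF : pr (fun p : (ι → Fin (k + 1)) × (ρ → ι) =>
      ∀ i : Fin k, A (pt p.1 p.2 (fun l => if l ∈ J then i.castSucc else y0 l))) = mn F := rfl
  have hg01 : ∀ T1 x, 0 ≤ g T1 x ∧ g T1 x ≤ 1 := fun T1 x => cmp_ind01 _
  have hH : hh A J.card = mn (fun T1 => mn (g T1)) := by
    rw [cmp_hh, cmp_pr, cmp_mnprod]
  -- step 1
  have hs1 : |mn F - mn G| ≤ (Fintype.card ρ : ℝ) ^ 2 / Fintype.card ι := by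
    rw [← cmp_equiv (cmp_split J) G]
    refine (cmp_abs _ _ (fun p : (ι → Fin (k + 1)) × (ρ → ι) =>
      cmp_ind (¬ Function.Injective p.2)) ?_).trans ?_
    · rintro ⟨x, T⟩
      by_cases hT : Function.Injective T
      · have h1 : F (x, T) = G (cmp_split J (x, T)) := by
          show cmp_ind (∀ i : Fin k, A (pt x T (fun l => if l ∈ J then i.castSucc else y0 l))) =
            cmp_ind (∀ i : Fin k, A (pt (pt x (fun l : {l // ¬ l ∈ J} => T l.1)
              (fun l => y0 l.1)) (fun l : {l // l ∈ J} => T l.1) (fun _ => i.castSucc)))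
          simp only [cmp_pt J y0 x T hT]
        rw [h1, sub_self, abs_zero]
        exact (cmp_ind01 _).1
      · have h0 : cmp_ind (¬ Function.Injective T) = 1 := by
          unfold cmp_ind
          rw [if_pos hT]
        show |F (x, T) - G (cmp_split J (x, T))| ≤ cmp_ind (¬ Function.Injective T)
        rw [h0]
        have h1 : 0 ≤ F (x, T) ∧ F (x, T) ≤ 1 := cmp_ind01 _
        have h2 : 0 ≤ G (cmp_split J (x, T)) ∧ G (cmp_split J (x, T)) ≤ 1 := cmp_ind01 _
        rw [abs_le]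
        constructor <;> linarith [h1.1, h1.2, h2.1, h2.2]
    · rw [cmp_mnprod]
      have h3 := hNin ι ρ
      rw [cmp_pr] at h3
      have h4 : mn (fun _ : ι → Fin (k + 1) => mn (fun T : ρ → ι =>
          cmp_ind (¬ Function.Injective T))) = mn (fun T : ρ → ι =>
          cmp_ind (¬ Function.Injective T)) := cmp_const _
      exact h4.le.trans h3
  -- step 2
  have hs2 : |mn G - mn (fun T1 => mn (g T1))| ≤
      Fintype.card ρ * Real.sqrt ((k : ℝ) / Fintype.card ι) +
        (Fintype.card ρ : ℝ) ^ 2 / Fintype.card ι := by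
    rw [cmp_mnprod G]
    refine (cmp_abs _ _ (fun _ => Fintype.card ρ * Real.sqrt ((k : ℝ) / Fintype.card ι) +
        (Fintype.card ρ : ℝ) ^ 2 / Fintype.card ι) ?_).trans (cmp_const _).le
    intro T1
    have h1 := hPt k ι {l // ¬ l ∈ J} (fun l => y0 l.1) (g T1) (hg01 T1)
    refine h1.trans ?_
    have h2 : (Fintype.card {l // ¬ l ∈ J} : ℝ) ≤ Fintype.card ρ := by
      exact_mod_cast Fintype.card_subtype_le _
    refine add_le_add (mul_le_mul_of_nonneg_right h2 (Real.sqrt_nonneg _)) ?_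
    exact div_le_div_of_nonneg_right (pow_le_pow_left₀ (Nat.cast_nonneg _) h2 2) hN.le
  rw [hF, hH]
  have h3 : 0 ≤ (Fintype.card ρ : ℝ) ^ 2 / Fintype.card ι := by positivity
  calc |mn F - mn (fun T1 => mn (g T1))|
      ≤ |mn F - mn G| + |mn G - mn (fun T1 => mn (g T1))| := abs_sub_le _ _ _
    _ ≤ (Fintype.card ρ : ℝ) ^ 2 / Fintype.card ι +
        (Fintype.card ρ * Real.sqrt ((k : ℝ) / Fintype.card ι) +
          (Fintype.card ρ : ℝ) ^ 2 / Fintype.card ι) := add_le_add hs1 hs2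
    _ ≤ Fintype.card ρ * Real.sqrt ((k : ℝ) / Fintype.card ι) +
        3 * (Fintype.card ρ : ℝ) ^ 2 / Fintype.card ι := by
        rw [mul_div_assoc]
        linarith

end Pool.Agent.Lib.MP_9f2731_nt.GP.Dhj
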