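import Pool.Agent.Lib.MP_9f2731_nt.GP.Dhj.Spec

/-!
MP_9f2731_nt, GP/Dhj, module Dim: a subspace on which the mean does not decrease.
-/

namespace Pool.Agent.Lib.MP_9f2731_nt.GP.Dhj

open Finset

open Classical in
/-- the word with the wildcards at the places of `f` and the letters of `z` elsewhere -/
private noncomputable def dim_w {ι : Type} {k m : ℕ} (f : Fin m → ι) (z : ι → Fin k) :
    ι → Fin k ⊕ Fin m :=
  fun t => if h : ∃ j, f j = t then Sum.inr (Classical.choose h) else Sum.inl (z t)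

private theorem dim_sub_in {ι : Type} {k m : ℕ} {f : Fin m → ι} (hf : Function.Injective f)
    (z : ι → Fin k) (y : Fin m → Fin k) (j : Fin m) : sub (dim_w f z) y (f j) = y j := by
  have h : ∃ j', f j' = f j := ⟨j, rfl⟩
  unfold sub dim_w
  rw [dif_pos h]
  exact congrArg y (hf (Classical.choose_spec h))

private theorem dim_sub_out {ι : Type} {k m : ℕ} {f : Fin m → ι}
    (z : ι → Fin k) (y : Fin m → Fin k) (t : ι) (ht : ¬ ∃ j, f j = t) : sub (dim_w f z) y t = z t := by
  unfold sub dim_w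
  rw [dif_neg ht]
  rfl

private theorem dim_inv {ι : Type} {k m : ℕ} {f : Fin m → ι} (hf : Function.Injective f)
    (z : ι → Fin k) (y : Fin m → Fin k) :
    sub (dim_w f (sub (dim_w f z) y)) (fun j => z (f j)) = z := by
  funext t
  by_cases h : ∃ j, f j = t
  · obtain ⟨j, rfl⟩ := h
    rw [dim_sub_in hf]
  · rw [dim_sub_out _ _ _ h, dim_sub_out _ _ _ h]

private noncomputable def dim_equiv {ι : Type} {k m : ℕ} {f : Fin m → ι} (hf : Function.Injective f) :
    ((ι → Fin k) × (Fin m → Fin k)) ≃ ((ι → Fin k) × (Fin m → Fin k)) where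
  toFun p := (sub (dim_w f p.1) p.2, fun j => p.1 (f j))
  invFun p := (sub (dim_w f p.1) p.2, fun j => p.1 (f j))
  left_inv p := Prod.ext (dim_inv hf p.1 p.2) (funext fun j => dim_sub_in hf p.1 p.2 j)
  right_inv p := Prod.ext (dim_inv hf p.1 p.2) (funext fun j => dim_sub_in hf p.1 p.2 j)

/-- Module Dim. -/
theorem pDim : DimStmt := by
  intro k m ι _ _ hk hc a
  obtain ⟨f⟩ : Nonempty (Fin m ↪ ι) :=
    Function.Embedding.nonempty_of_card_le (by rw [Fintype.card_fin]; exact hc)
  have hf := f.injective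
  have hne : Nonempty (Fin k) := ⟨⟨0, hk⟩⟩
  have hsum : ∑ z : ι → Fin k, ∑ y : Fin m → Fin k, a (sub (dim_w f z) y)
      = (Fintype.card (Fin m → Fin k) : ℝ) * ∑ x, a x := by
    have h1 : ∑ z : ι → Fin k, ∑ y : Fin m → Fin k, a (sub (dim_w f z) y)
        = ∑ p : (ι → Fin k) × (Fin m → Fin k), a (dim_equiv hf p).1 := by
      rw [Fintype.sum_prod_type]
      rfl
    rw [h1, Equiv.sum_comp (dim_equiv hf) fun p => a p.1, Fintype.sum_prod_type, Finset.mul_sum]
    refine Finset.sum_congr rfl fun x _ => ?_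
    simp
  have hcm : (0 : ℝ) < Fintype.card (Fin m → Fin k) := by
    exact_mod_cast Fintype.card_pos
  have hci : (0 : ℝ) < Fintype.card (ι → Fin k) := by
    exact_mod_cast Fintype.card_pos
  have hsum2 : ∑ _z : ι → Fin k, mn a ≤ ∑ z : ι → Fin k, mn fun y : Fin m → Fin k => a (sub (dim_w f z) y) := by
    have h2 : ∑ z : ι → Fin k, mn (fun y : Fin m → Fin k => a (sub (dim_w f z) y)) = ∑ x, a x := by
      unfold mn
      rw [← Finset.sum_div, hsum]
      field_simp
    rw [h2, Finset.sum_const, Finset.card_univ, nsmul_eq_mul]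
    unfold mn
    exact le_of_eq (by field_simp)
  obtain ⟨z, _, hz⟩ := Finset.exists_le_of_sum_le Finset.univ_nonempty hsum2
  refine ⟨dim_w f z, fun j => ⟨f j, ?_⟩, hz⟩
  have h : ∃ j', f j' = f j := ⟨j, rfl⟩
  unfold dim_w
  rw [dif_pos h]
  exact congrArg Sum.inr (hf (Classical.choose_spec h))

end Pool.Agent.Lib.MP_9f2731_nt.GP.Dhj
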