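import Pool.Agent.Lib.MP_9f2731_nt.GP.Dhj.Spec

/-!
MP_9f2731_nt, GP/Dhj, module Fib (helper44): full subspaces inside dense insensitive sets.
-/

namespace Pool.Agent.Lib.MP_9f2731_nt.GP.Dhj

open Finset

/-- the point with the letters y (in Fin k) on S and the last letter elsewhere -/
private def fib_p {ι : Type} [DecidableEq ι] {k : ℕ} (S : Finset ι) (y : {t // t ∈ S} → Fin k) :
    ι → Fin (k + 1) :=
  fun t => if h : t ∈ S then (y ⟨t, h⟩).castSucc else Fin.last k

private theorem fib_p_in {ι : Type} [DecidableEq ι] {k : ℕ} {S : Finset ι}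
    (y : {t // t ∈ S} → Fin k) {t : ι} (h : t ∈ S) : fib_p S y t = (y ⟨t, h⟩).castSucc := by
  unfold fib_p
  rw [dif_pos h]

private theorem fib_p_out {ι : Type} [DecidableEq ι] {k : ℕ} {S : Finset ι}
    (y : {t // t ∈ S} → Fin k) {t : ι} (h : t ∉ S) : fib_p S y t = Fin.last k := by
  unfold fib_p
  rw [dif_neg h]

private theorem fib_bij (ι : Type) [Fintype ι] [DecidableEq ι] (k : ℕ) :
    Function.Bijective
      (fun p : (Σ S : Finset ι, ({t // t ∈ S} → Fin k)) => fib_p p.1 p.2) := by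
  constructor
  · rintro ⟨S, y⟩ ⟨S', y'⟩ h
    have h1 : ∀ t, fib_p S y t = fib_p S' y' t := fun t => congrFun h t
    have h2 : S = S' := by
      ext t
      constructor
      · intro ht
        by_contra ht'
        have h3 := h1 t
        rw [fib_p_in y ht, fib_p_out y' ht'] at h3
        exact (Fin.castSucc_lt_last _).ne h3
      · intro ht'
        by_contra ht
        have h3 := h1 t
        rw [fib_p_in y' ht', fib_p_out y ht] at h3
        exact (Fin.castSucc_lt_last _).ne h3.symm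
    subst h2
    have h3 : y = y' := by
      funext t
      have h4 := h1 t.1
      rw [fib_p_in y t.2, fib_p_in y' t.2] at h4
      exact Fin.castSucc_injective _ h4
    rw [h3]
  · intro x
    refine ⟨⟨univ.filter (fun t => x t ≠ Fin.last k), fun t => (x t.1).castPred ?_⟩, ?_⟩
    · exact (mem_filter.mp t.2).2
    · funext t
      by_cases h : t ∈ univ.filter (fun t => x t ≠ Fin.last k)
      · show fib_p _ _ t = x t
        rw [fib_p_in _ h, Fin.castSucc_castPred]
      · show fib_p _ _ t = x t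
        rw [fib_p_out _ h]
        by_contra h'
        exact h (mem_filter.mpr ⟨mem_univ _, fun h2 => h' h2.symm⟩)

private theorem fib_sum (ι : Type) [Fintype ι] [DecidableEq ι] (k : ℕ)
    (g : (ι → Fin (k + 1)) → ℝ) :
    ∑ x, g x = ∑ S : Finset ι, ∑ y : {t // t ∈ S} → Fin k, g (fib_p S y) := by
  rw [← Fintype.sum_sigma (fun p : (Σ S : Finset ι, ({t // t ∈ S} → Fin k)) => g (fib_p p.1 p.2))]
  exact ((fib_bij ι k).sum_comp g).symm

private theorem fib_num {k : ℕ} (hk : 1 ≤ k) {n1 n N : ℕ} {η : ℝ} (hn : n ≤ N)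
    (h : 2 ^ n1 * (3 / 4 : ℝ) ^ n < η / 2) :
    2 ^ n1 * ((k : ℝ) / 2 + 1) ^ N < η / 2 * ((k : ℝ) + 1) ^ N := by
  have hk' : (1 : ℝ) ≤ k := by exact_mod_cast hk
  have h1 : ((k : ℝ) / 2 + 1) ^ N ≤ (3 / 4 * ((k : ℝ) + 1)) ^ N :=
    pow_le_pow_left₀ (by positivity) (by linarith) N
  have h2 : (3 / 4 : ℝ) ^ N ≤ (3 / 4 : ℝ) ^ n :=
    pow_le_pow_of_le_one (by norm_num) (by norm_num) hn
  have h3 : (0 : ℝ) < ((k : ℝ) + 1) ^ N := by positivity
  calc 2 ^ n1 * ((k : ℝ) / 2 + 1) ^ N ≤ 2 ^ n1 * (3 / 4 * ((k : ℝ) + 1)) ^ N :=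
        mul_le_mul_of_nonneg_left h1 (by positivity)
    _ = (2 ^ n1 * (3 / 4 : ℝ) ^ N) * ((k : ℝ) + 1) ^ N := by rw [mul_pow]; ring
    _ ≤ (2 ^ n1 * (3 / 4 : ℝ) ^ n) * ((k : ℝ) + 1) ^ N :=
        mul_le_mul_of_nonneg_right (mul_le_mul_of_nonneg_left h2 (by positivity)) h3.le
    _ < η / 2 * ((k : ℝ) + 1) ^ N := mul_lt_mul_of_pos_right h h3

theorem pFib : FibStmt := by
  classical
  intro k hHJ m η hη
  obtain ⟨n1, hn1⟩ := hHJ m (η / 2) (by linarith)
  obtain ⟨n, hn⟩ : ∃ n : ℕ, 2 ^ n1 * (3 / 4 : ℝ) ^ n < η / 2 := by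
    obtain ⟨n, hn⟩ := exists_pow_lt_of_lt_one (show (0 : ℝ) < η / 2 / 2 ^ n1 by positivity)
      (show (3 / 4 : ℝ) < 1 by norm_num)
    refine ⟨n, ?_⟩
    rw [lt_div_iff₀ (by positivity)] at hn
    linarith
  refine ⟨n, ?_⟩
  intro ι _ _ hcard i E hIns hE
  have hk : 1 ≤ k := by
    have := i.2
    omega
  have hk' : (1 : ℝ) ≤ k := by exact_mod_cast hk
  -- a set S with a dense fibre
  obtain ⟨S, hS1, hS2⟩ : ∃ S : Finset ι, n1 ≤ S.card ∧
      η / 2 ≤ pr (fun y : {t // t ∈ S} → Fin k => E (fib_p S y)) := by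
    by_contra hcon
    push Not at hcon
    have hS : ∀ S : Finset ι, (∑ y : {t // t ∈ S} → Fin k,
        (if E (fib_p S y) then (1 : ℝ) else 0)) ≤
        η / 2 * (k : ℝ) ^ S.card + 2 ^ n1 * ((k : ℝ) / 2) ^ S.card := by
      intro S
      have hcS : (Fintype.card ({t // t ∈ S} → Fin k) : ℝ) = (k : ℝ) ^ S.card := by
        rw [Fintype.card_fun, Fintype.card_fin, Fintype.card_coe]
        push_cast
        rfl
      have hpos : (0 : ℝ) < (k : ℝ) ^ S.card := by positivity
      by_cases hc : n1 ≤ S.card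
      · have h1 := hcon S hc
        unfold pr mn at h1
        rw [hcS, div_lt_iff₀ hpos] at h1
        have h2 : (0 : ℝ) ≤ 2 ^ n1 * ((k : ℝ) / 2) ^ S.card := by positivity
        linarith
      · have h1 : (∑ y : {t // t ∈ S} → Fin k, (if E (fib_p S y) then (1 : ℝ) else 0)) ≤
            ∑ _y : {t // t ∈ S} → Fin k, (1 : ℝ) := by
          refine Finset.sum_le_sum fun y _ => ?_
          split_ifs <;> norm_num
        rw [Finset.sum_const, Finset.card_univ, nsmul_eq_mul, mul_one, hcS] at h1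
        have h2 : (k : ℝ) ^ S.card ≤ 2 ^ n1 * ((k : ℝ) / 2) ^ S.card := by
          rw [div_pow, mul_div_assoc', le_div_iff₀ (by positivity), mul_comm]
          refine mul_le_mul_of_nonneg_right ?_ hpos.le
          exact pow_le_pow_right₀ (by norm_num) (by omega)
        have h3 : 0 ≤ η / 2 * (k : ℝ) ^ S.card := by positivity
        linarith
    have hsum : (∑ x : ι → Fin (k + 1), (if E x then (1 : ℝ) else 0)) ≤
        η / 2 * ((k : ℝ) + 1) ^ Fintype.card ι + 2 ^ n1 * ((k : ℝ) / 2 + 1) ^ Fintype.card ι := by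
      rw [fib_sum ι k (fun x => if E x then (1 : ℝ) else 0)]
      refine (Finset.sum_le_sum fun S _ => hS S).trans (le_of_eq ?_)
      rw [Finset.sum_add_distrib, ← Finset.mul_sum, ← Finset.mul_sum,
        ← Fintype.sum_pow_mul_eq_add_pow ι (k : ℝ) 1,
        ← Fintype.sum_pow_mul_eq_add_pow ι ((k : ℝ) / 2) 1]
      simp
    have hnum := fib_num hk hcard hn
    have hlt : (∑ x : ι → Fin (k + 1), (if E x then (1 : ℝ) else 0)) <
        η * ((k : ℝ) + 1) ^ Fintype.card ι := by linarith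
    have hcι : (Fintype.card (ι → Fin (k + 1)) : ℝ) = ((k : ℝ) + 1) ^ Fintype.card ι := by
      rw [Fintype.card_fun, Fintype.card_fin]
      push_cast
      rfl
    unfold pr mn at hE
    rw [hcι, le_div_iff₀ (by positivity)] at hE
    linarith
  obtain ⟨v, hv, hvE⟩ := hn1 {t // t ∈ S} (by rw [Fintype.card_coe]; exact hS1)
    (fun y => E (fib_p S y)) hS2
  refine ⟨fun t => if h : t ∈ S then Sum.map Fin.castSucc id (v ⟨t, h⟩) else
    Sum.inl (Fin.last k), ?_, ?_⟩
  · intro j
    obtain ⟨t, ht⟩ := hv j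
    refine ⟨t.1, ?_⟩
    show (if h : t.1 ∈ S then Sum.map Fin.castSucc id (v ⟨t.1, h⟩) else
      Sum.inl (Fin.last k)) = Sum.inr j
    rw [dif_pos t.2]
    show Sum.map Fin.castSucc id (v t) = Sum.inr j
    rw [ht]
    rfl
  · intro y
    have h1 := hvE (fun j => if h : y j = Fin.last k then i else (y j).castPred h)
    rw [← hIns] at h1 ⊢
    have h2 : rp i (sub (fun t => if h : t ∈ S then Sum.map Fin.castSucc id (v ⟨t, h⟩) else
        Sum.inl (Fin.last k)) y) = rp i (fib_p S (sub v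
          (fun j => if h : y j = Fin.last k then i else (y j).castPred h))) := by
      funext t
      unfold rp
      by_cases ht : t ∈ S
      · rw [fib_p_in _ ht]
        unfold sub
        simp only [dif_pos ht]
        cases hv2 : v ⟨t, ht⟩ with
        | inl a => rfl
        | inr j =>
          by_cases hj : y j = Fin.last k
          · simp [hj, (Fin.castSucc_lt_last i).ne]
          · simp [hj]
      · rw [fib_p_out _ ht]
        unfold sub
        simp [dif_neg ht]
    rw [h2]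
    exact h1

end Pool.Agent.Lib.MP_9f2731_nt.GP.Dhj
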