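import Pool.Agent.Lib.MP_9f2731_nt.GP.Dhj.Spec

/-!
MP_9f2731_nt, GP/Dhj/Flk: Folkman's theorem, from Hindman's theorem by compactness.
-/

namespace Pool.Agent.Lib.MP_9f2731_nt.GP.Dhj

open Finset

private theorem Flk_pos (a : Stream' ℕ) (n : ℕ) (h : n ∈ Hindman.FS a) :
    (∀ i, 1 ≤ a.get i) → 1 ≤ n := by
  induction h with
  | head' a =>
    intro h1
    exact h1 0
  | tail' a m _ ih =>
    intro h1
    exact ih fun i => h1 (i + 1)
  | cons' a m _ ih =>
    intro h1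
    have h2 := ih fun i => h1 (i + 1)
    show 1 ≤ a.head + m
    omega

private theorem Flk_hindman (Q : ℕ → Prop) (m : ℕ) : ∃ u : Fin m → ℕ, (∀ j, 1 ≤ u j) ∧
    ((∀ J : Finset (Fin m), J.Nonempty → Q (∑ j ∈ J, u j)) ∨
      ∀ J : Finset (Fin m), J.Nonempty → ¬ Q (∑ j ∈ J, u j)) := by
  obtain ⟨c, hc, b, hb⟩ := Hindman.FS_partition_regular (fun _ : ℕ => (1 : ℕ))
    ({{n | 1 ≤ n ∧ Q n}, {n | 1 ≤ n ∧ ¬ Q n}} : Set (Set ℕ)) (Set.toFinite _) (by
      intro n hn
      have h1 : 1 ≤ n := Flk_pos _ n hn fun _ => le_rfl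
      by_cases hq : Q n
      · exact ⟨{n | 1 ≤ n ∧ Q n}, Or.inl rfl, h1, hq⟩
      · exact ⟨{n | 1 ≤ n ∧ ¬ Q n}, Or.inr rfl, h1, hq⟩)
  have hsum : ∀ J : Finset (Fin m), J.Nonempty → (∑ j ∈ J, b.get j.val) ∈ c := by
    intro J hJ
    have h1 := Hindman.FS.finsetSum b (J.map Fin.valEmbedding) (hJ.map)
    rw [Finset.sum_map] at h1
    exact hb h1
  rcases hc with rfl | hc
  · refine ⟨fun j => b.get j.val, fun j => ?_, Or.inl fun J hJ => (hsum J hJ).2⟩
    have h1 := (hsum {j} (Finset.singleton_nonempty j)).1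
    rw [Finset.sum_singleton] at h1
    exact h1
  · have hc' : c = {n | 1 ≤ n ∧ ¬ Q n} := hc
    subst hc'
    refine ⟨fun j => b.get j.val, fun j => ?_, Or.inr fun J hJ => (hsum J hJ).2⟩
    have h1 := (hsum {j} (Finset.singleton_nonempty j)).1
    rw [Finset.sum_singleton] at h1
    exact h1

theorem pFlk : FlkStmt := by
  intro m
  by_contra hcon
  push Not at hcon
  choose P hP using hcon
  obtain ⟨u, hu, hQ⟩ := Flk_hindman (fun n => ∀ᶠ F in (Filter.hyperfilter ℕ : Filter ℕ), P F n) m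
  have hge : ∀ᶠ F in (Filter.hyperfilter ℕ : Filter ℕ), ∑ j, u j ≤ F :=
    Nat.hyperfilter_le_atTop (Filter.eventually_ge_atTop (∑ j, u j))
  rcases hQ with h | h
  · have h1 : ∀ᶠ F in (Filter.hyperfilter ℕ : Filter ℕ),
        ∀ J : Finset (Fin m), J.Nonempty → P F (∑ j ∈ J, u j) := by
      rw [Filter.eventually_all]
      intro J
      by_cases hJ : J.Nonempty
      · filter_upwards [h J hJ] with F hF _ using hF
      · exact Filter.Eventually.of_forall fun F h' => absurd h' hJ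
    obtain ⟨F, hF1, hF2⟩ := (h1.and hge).exists
    obtain ⟨J, hJ, hJ'⟩ := (hP F u hu hF2).1
    exact hJ' (hF1 J hJ)
  · have h1 : ∀ᶠ F in (Filter.hyperfilter ℕ : Filter ℕ),
        ∀ J : Finset (Fin m), J.Nonempty → ¬ P F (∑ j ∈ J, u j) := by
      rw [Filter.eventually_all]
      intro J
      by_cases hJ : J.Nonempty
      · have h2 := Ultrafilter.eventually_not.2 (h J hJ)
        filter_upwards [h2] with F hF _ using hF
      · exact Filter.Eventually.of_forall fun F h' => absurd h' hJ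
    obtain ⟨F, hF1, hF2⟩ := (h1.and hge).exists
    obtain ⟨J, hJ, hJ'⟩ := (hP F u hu hF2).2
    exact hF1 J hJ hJ'

end Pool.Agent.Lib.MP_9f2731_nt.GP.Dhj
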