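import Pool.Agent.Lib.MP_9f2731_nt.GP.Dhj.Spec

/-!
MP_9f2731_nt, GP/Dhj, module Fnd (helper44): good sizes meet all finite sums sets.
-/

namespace Pool.Agent.Lib.MP_9f2731_nt.GP.Dhj

open Finset

open Classical in
/-- indicator -/
private noncomputable def fnd_ind (P : Prop) : ℝ := if P then 1 else 0

private theorem fnd_pr {X : Type} [Fintype X] (P : X → Prop) :
    pr P = mn (fun x => fnd_ind (P x)) := rfl

private theorem fnd_ind01 (P : Prop) : 0 ≤ fnd_ind P ∧ fnd_ind P ≤ 1 := by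
  unfold fnd_ind
  split_ifs <;> norm_num

private theorem fnd_ind_pos {P : Prop} (h : P) : fnd_ind P = 1 := by
  unfold fnd_ind
  rw [if_pos h]

private theorem fnd_ind_neg {P : Prop} (h : ¬ P) : fnd_ind P = 0 := by
  unfold fnd_ind
  rw [if_neg h]

private theorem fnd_mono {X : Type} [Fintype X] {f g : X → ℝ} (h : ∀ x, f x ≤ g x) :
    mn f ≤ mn g := by
  unfold mn
  exact div_le_div_of_nonneg_right (Finset.sum_le_sum fun x _ => h x) (Nat.cast_nonneg _)

private theorem fnd_comm {X Y : Type} [Fintype X] [Fintype Y] (f : X → Y → ℝ) :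
    mn (fun x => mn (fun y => f x y)) = mn (fun y => mn (fun x => f x y)) := by
  unfold mn
  rw [← Finset.sum_div, ← Finset.sum_div, Finset.sum_comm, div_div, div_div, mul_comm]

private theorem fnd_add {X : Type} [Fintype X] (f g : X → ℝ) :
    mn (fun x => f x + g x) = mn f + mn g := by
  unfold mn
  rw [Finset.sum_add_distrib, add_div]

private theorem fnd_const {X : Type} [Fintype X] [Nonempty X] (c : ℝ) :
    mn (fun _ : X => c) = c := by
  unfold mn
  have h : (Fintype.card X : ℝ) ≠ 0 := by exact_mod_cast Fintype.card_ne_zero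
  rw [Finset.sum_const, Finset.card_univ, nsmul_eq_mul]
  field_simp

private theorem fnd_sum {X κ : Type} [Fintype X] (s : Finset κ) (f : κ → X → ℝ) :
    mn (fun x => ∑ v ∈ s, f v x) = ∑ v ∈ s, mn (f v) := by
  unfold mn
  rw [Finset.sum_comm, Finset.sum_div]

/-- Markov -/
private theorem fnd_markov {X : Type} [Fintype X] [Nonempty X] (Z : X → ℝ) (δ : ℝ)
    (h1 : ∀ x, Z x ≤ 1) (hδ : 0 < δ) (h : 3 * δ / 4 ≤ mn Z) :
    δ / 4 ≤ mn (fun x => fnd_ind (δ / 2 ≤ Z x)) := by
  have h2 : mn Z ≤ mn (fun x => fnd_ind (δ / 2 ≤ Z x) + δ / 2) := by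
    refine fnd_mono fun x => ?_
    by_cases hx : δ / 2 ≤ Z x
    · rw [fnd_ind_pos hx]
      linarith [h1 x]
    · rw [fnd_ind_neg hx]
      push Not at hx
      linarith
  rw [fnd_add, fnd_const] at h2
  linarith

private theorem fnd_lim (k F : ℕ) {θ : ℝ} (hθ : 0 < θ) : ∃ N1 : ℕ, ∀ N : ℕ, N1 ≤ N →
    (F : ℝ) * Real.sqrt ((k : ℝ) / N) + 3 * (F : ℝ) ^ 2 / N < θ := by
  have h1 : Filter.Tendsto (fun N : ℕ => (k : ℝ) / N) Filter.atTop (nhds 0) :=
    tendsto_const_div_atTop_nhds_zero_nat _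
  have h2 : Filter.Tendsto (fun N : ℕ => 3 * (F : ℝ) ^ 2 / N) Filter.atTop (nhds 0) :=
    tendsto_const_div_atTop_nhds_zero_nat _
  have h3 : Filter.Tendsto (fun N : ℕ => Real.sqrt ((k : ℝ) / N)) Filter.atTop (nhds 0) := by
    have h4 := (Real.continuous_sqrt.tendsto 0).comp h1
    rw [Real.sqrt_zero] at h4
    exact h4
  have h5 : Filter.Tendsto (fun N : ℕ => (F : ℝ) * Real.sqrt ((k : ℝ) / N)
      + 3 * (F : ℝ) ^ 2 / N) Filter.atTop (nhds ((F : ℝ) * 0 + 0)) :=
    (h3.const_mul _).add h2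
  rw [mul_zero, add_zero] at h5
  exact (h5.eventually (gt_mem_nhds hθ)).exists_forall_of_atTop

theorem pFnd (hPt : PtStmt) (hCmp : CmpStmt) : FndStmt := by
  classical
  intro k hk hHJ δ0 hδ0
  obtain ⟨m1, hm1⟩ := hHJ 1 (δ0 / 2) (by linarith)
  obtain ⟨m, hm⟩ : ∃ m, m = m1 + 1 := ⟨_, rfl⟩
  have hMH : MH k 1 (δ0 / 2) m := hm1.mono (by omega)
  obtain ⟨K, hKdef⟩ : ∃ K : ℝ, K = ((k : ℝ) + 1) ^ m := ⟨_, rfl⟩
  have hK : 1 ≤ K := by
    rw [hKdef]
    exact one_le_pow₀ (by linarith [(Nat.cast_nonneg k : (0 : ℝ) ≤ k)])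
  have hK0 : 0 < K := by linarith
  have hθ : 0 < δ0 / (8 * K) := by positivity
  refine ⟨min 1 (δ0 / (8 * K)), m, lt_min one_pos hθ, min_le_left _ _, by omega, ?_⟩
  intro F
  obtain ⟨N1, hN1⟩ := fnd_lim k F hθ
  refine ⟨N1 + 1, ?_⟩
  intro ι _ _ hι A hA u _ hF
  have hne : Nonempty ι := Fintype.card_pos_iff.mp (by omega)
  have hN : (0 : ℝ) < (Fintype.card ι : ℝ) := by exact_mod_cast Fintype.card_pos
  have herr := hN1 (Fintype.card ι) (by omega)
  have hkne : Nonempty (Fin k) := ⟨⟨0, by omega⟩⟩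
  -- the index type of the places
  have hcard : Fintype.card (Σ j : Fin m, Fin (u j)) ≤ F := by
    rw [Fintype.card_sigma]
    simpa using hF
  have hcard' : (Fintype.card (Σ j : Fin m, Fin (u j)) : ℝ) ≤ F := by exact_mod_cast hcard
  have he1 : Fintype.card (Σ j : Fin m, Fin (u j)) * Real.sqrt ((k : ℝ) / Fintype.card ι) +
      3 * (Fintype.card (Σ j : Fin m, Fin (u j)) : ℝ) ^ 2 / Fintype.card ι ≤ δ0 / (8 * K) := by
    refine le_trans (add_le_add (mul_le_mul_of_nonneg_right hcard' (Real.sqrt_nonneg _)) ?_)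
      herr.le
    exact div_le_div_of_nonneg_right (mul_le_mul_of_nonneg_left
      (pow_le_pow_left₀ (Nat.cast_nonneg _) hcard' 2) (by norm_num)) hN.le
  have he2 : Fintype.card (Σ j : Fin m, Fin (u j)) * Real.sqrt ((k : ℝ) / Fintype.card ι) +
      (Fintype.card (Σ j : Fin m, Fin (u j)) : ℝ) ^ 2 / Fintype.card ι ≤ δ0 / (8 * K) := by
    refine le_trans ?_ he1
    have h0 : 0 ≤ (Fintype.card (Σ j : Fin m, Fin (u j)) : ℝ) ^ 2 / Fintype.card ι := by
      positivity
    rw [mul_div_assoc]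
    linarith
  have hθ8 : δ0 / (8 * K) ≤ δ0 / 8 := by
    refine div_le_div_of_nonneg_left hδ0.le (by norm_num) (by linarith)
  -- the densities
  let P : (Fin m → Fin k) → ((ι → Fin (k + 1)) × ((Σ j : Fin m, Fin (u j)) → ι)) → Prop :=
    fun y p => A (pt p.1 p.2 (fun l => (y l.1).castSucc))
  have hmean : ∀ y, 3 * δ0 / 4 ≤ mn (fun p => fnd_ind (P y p)) := by
    intro y
    have h1 := hPt k ι (Σ j : Fin m, Fin (u j)) (fun l => (y l.1).castSucc)
      (fun x => fnd_ind (A x)) (fun x => fnd_ind01 _)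
    have h2 : mn (fun x => fnd_ind (A x)) = pr A := rfl
    rw [h2] at h1
    have h3 := (abs_le.mp (h1.trans he2)).1
    have h4 : mn (fun p : (ι → Fin (k + 1)) × ((Σ j : Fin m, Fin (u j)) → ι) =>
      fnd_ind (A (pt p.1 p.2 fun l => (y l.1).castSucc))) = mn (fun p => fnd_ind (P y p)) := rfl
    rw [h4] at h3
    linarith
  have hZ : 3 * δ0 / 4 ≤ mn (fun p => pr (fun y => P y p)) := by
    have h1 : mn (fun p => pr (fun y => P y p)) = mn (fun y => mn (fun p => fnd_ind (P y p))) :=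
      fnd_comm (fun p y => fnd_ind (P y p))
    rw [h1]
    calc 3 * δ0 / 4 = mn (fun _ : Fin m → Fin k => 3 * δ0 / 4) := (fnd_const _).symm
      _ ≤ _ := fnd_mono hmean
  have hZ1 : ∀ p, pr (fun y => P y p) ≤ 1 := by
    intro p
    calc pr (fun y => P y p) ≤ mn (fun _ : Fin m → Fin k => (1 : ℝ)) :=
          fnd_mono fun y => (fnd_ind01 _).2
      _ = 1 := fnd_const _
  have hM := fnd_markov (fun p => pr (fun y => P y p)) δ0 hZ1 hδ0 hZ
  -- pigeonhole
  let Q : (Fin m → Fin k ⊕ Fin 1) →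
      ((ι → Fin (k + 1)) × ((Σ j : Fin m, Fin (u j)) → ι)) → Prop :=
    fun v p => Ful v ∧ ∀ y : Fin 1 → Fin k, P (sub v y) p
  have hcover : ∀ p, fnd_ind (δ0 / 2 ≤ pr (fun y => P y p)) ≤ ∑ v, fnd_ind (Q v p) := by
    intro p
    by_cases hp : δ0 / 2 ≤ pr (fun y => P y p)
    · obtain ⟨v, hv1, hv2⟩ := hMH (Fin m) (by simp) (fun y => P y p) hp
      have h1 : fnd_ind (Q v p) ≤ ∑ v, fnd_ind (Q v p) :=
        Finset.single_le_sum (f := fun v => fnd_ind (Q v p)) (fun v _ => (fnd_ind01 _).1)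
          (mem_univ v)
      rw [fnd_ind_pos (show Q v p from ⟨hv1, hv2⟩)] at h1
      exact (fnd_ind01 _).2.trans h1
    · rw [fnd_ind_neg hp]
      exact Finset.sum_nonneg fun v _ => (fnd_ind01 _).1
  obtain ⟨v, hv⟩ : ∃ v, δ0 / (4 * K) ≤ mn (fun p => fnd_ind (Q v p)) := by
    by_contra hcon
    push Not at hcon
    have h1 : δ0 / 4 ≤ ∑ v, mn (fun p => fnd_ind (Q v p)) := by
      rw [← fnd_sum]
      exact hM.trans (fnd_mono hcover)
    have h2 : ∑ v : Fin m → Fin k ⊕ Fin 1, mn (fun p => fnd_ind (Q v p)) <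
        ∑ _v : Fin m → Fin k ⊕ Fin 1, δ0 / (4 * K) :=
      Finset.sum_lt_sum_of_nonempty univ_nonempty fun v _ => hcon v
    have h3 : (Fintype.card (Fin m → Fin k ⊕ Fin 1) : ℝ) = K := by
      rw [hKdef, Fintype.card_fun, Fintype.card_sum, Fintype.card_fin, Fintype.card_fin,
        Fintype.card_fin]
      push_cast
      rfl
    rw [Finset.sum_const, Finset.card_univ, nsmul_eq_mul, h3] at h2
    have h4 : K * (δ0 / (4 * K)) = δ0 / 4 := by field_simp
    linarith
  have hful : Ful v := by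
    by_contra hcon
    have h1 : mn (fun p => fnd_ind (Q v p)) = 0 := by
      have h2 : (fun p => fnd_ind (Q v p)) = fun _ => (0 : ℝ) := by
        funext p
        exact fnd_ind_neg fun h => hcon h.1
      rw [h2]
      unfold mn
      simp
    rw [h1] at hv
    have h3 : 0 < δ0 / (4 * K) := by positivity
    linarith
  -- the wildcard places
  let J : Finset (Fin m) := univ.filter (fun j => v j = Sum.inr 0)
  let J' : Finset (Σ j : Fin m, Fin (u j)) := univ.filter (fun l => l.1 ∈ J)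
  have hJ' : J'.card = ∑ j ∈ J, u j := by
    have h1 : J' = J.sigma (fun j => (univ : Finset (Fin (u j)))) := by
      ext l
      simp [J']
    rw [h1, Finset.card_sigma]
    simp
  refine ⟨J, ?_, ?_⟩
  · obtain ⟨j, hj⟩ := hful 0
    exact ⟨j, mem_filter.mpr ⟨mem_univ _, hj⟩⟩
  · let y0 : (Σ j : Fin m, Fin (u j)) → Fin (k + 1) := fun l =>
      Sum.elim (fun a => a.castSucc) (fun _ => Fin.last k) (v l.1)
    have h1 := hCmp k ι (Σ j : Fin m, Fin (u j)) J' y0 A
    rw [hJ', fnd_pr] at h1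
    have h2 := (abs_le.mp (h1.trans he1)).2
    have h3 : mn (fun p => fnd_ind (Q v p)) ≤
        mn (fun p : (ι → Fin (k + 1)) × ((Σ j : Fin m, Fin (u j)) → ι) =>
          fnd_ind (∀ i : Fin k, A (pt p.1 p.2 (fun l => if l ∈ J' then i.castSucc else y0 l)))) := by
      refine fnd_mono fun p => ?_
      by_cases hp : Q v p
      · have h4 : ∀ i : Fin k, A (pt p.1 p.2 (fun l => if l ∈ J' then i.castSucc else y0 l)) := by
          intro i
          have h5 := hp.2 (fun _ => i)
          have h6 : (fun l : (Σ j : Fin m, Fin (u j)) => (sub v (fun _ => i) l.1).castSucc) =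
              fun l => if l ∈ J' then i.castSucc else y0 l := by
            funext l
            have h7 : l ∈ J' ↔ v l.1 = Sum.inr 0 := by simp [J', J]
            by_cases hl : v l.1 = Sum.inr 0
            · rw [if_pos (h7.mpr hl)]
              simp [sub, hl]
            · rw [if_neg (fun h => hl (h7.mp h))]
              show (sub v (fun _ => i) l.1).castSucc = Sum.elim (fun a => a.castSucc)
                (fun _ => Fin.last k) (v l.1)
              unfold sub
              cases hvl : v l.1 with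
              | inl a => rfl
              | inr b =>
                exact absurd (by rw [hvl, Subsingleton.elim b 0]) hl
          have h8 : P (sub v (fun _ => i)) p = A (pt p.1 p.2
            (fun l : (Σ j : Fin m, Fin (u j)) => (sub v (fun _ => i) l.1).castSucc)) := rfl
          rw [h8, h6] at h5
          exact h5
        rw [fnd_ind_pos h4]
        exact (fnd_ind01 _).2
      · rw [fnd_ind_neg hp]
        exact (fnd_ind01 _).1
    have h4 : δ0 / (4 * K) = 2 * (δ0 / (8 * K)) := by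
      field_simp
      norm_num
    refine (min_le_right _ _).trans ?_
    linarith

end Pool.Agent.Lib.MP_9f2731_nt.GP.Dhj
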