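import Pool.Agent.Lib.MP_9f2731_nt.GP.Dhj.Spec

/-!
MP_9f2731_nt, GP/Dhj, module Fnl: the density Hales-Jewett theorem in the form of GP/Defs.
-/

namespace Pool.Agent.Lib.MP_9f2731_nt.GP.Dhj

open Finset

private theorem fnl_all (h1 : BseStmt) (h2 : MulStmt) (h3 : IteStmt) : ∀ k, HJ k
  | 0 => h1.1
  | 1 => h1.2
  | k + 2 => h2 (k + 2) fun δ hδ => h3 (k + 1) (Nat.le_add_left 1 k) (fnl_all h1 h2 h3 (k + 1)) δ hδ

/-- Module Fnl. -/
theorem pFnl (h1 : BseStmt) (h2 : MulStmt) (h3 : IteStmt) : FnlStmt := by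
  intro k δ hδ
  rcases Nat.eq_zero_or_pos k with rfl | hk
  · exact ⟨1, fun A _ => ⟨fun _ => none, ⟨0, rfl⟩, fun i => i.elim0⟩⟩
  obtain ⟨n, hn⟩ := fnl_all h1 h2 h3 k 1 δ hδ
  refine ⟨n, fun A hA => ?_⟩
  have hkn : (0 : ℝ) < (k : ℝ) ^ n := by
    have : (0 : ℝ) < k := by exact_mod_cast hk
    positivity
  have hpr : δ ≤ pr (fun x : Fin n → Fin k => x ∈ A) := by
    unfold pr mn
    rw [Fintype.card_fun, Fintype.card_fin, Fintype.card_fin, Nat.cast_pow, le_div_iff₀ hkn]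
    refine hA.trans (le_of_eq ?_)
    have h5 : (A.card : ℝ) = ∑ x : Fin n → Fin k, (if x ∈ A then (1 : ℝ) else 0) := by simp
    rw [h5]
    refine Finset.sum_congr rfl fun x _ => ?_
    by_cases hx : x ∈ A
    · simp [hx]
    · simp [hx]
  obtain ⟨w, hw, hwA⟩ := hn (Fin n) (by rw [Fintype.card_fin]) (fun x => x ∈ A) hpr
  refine ⟨fun t => Sum.elim some (fun _ => none) (w t), ?_, fun i => ?_⟩
  · obtain ⟨t, ht⟩ := hw 0
    refine ⟨t, ?_⟩
    show Sum.elim some (fun _ => none) (w t) = none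
    rw [ht]
    rfl
  · have h := hwA fun _ => i
    have h4 : lineMap (fun t => Sum.elim some (fun _ => none) (w t)) i = sub w fun _ => i := by
      funext t
      show (Sum.elim some (fun _ => none) (w t)).getD i = Sum.elim id (fun _ => i) (w t)
      cases w t <;> rfl
    rw [h4]
    exact h

end Pool.Agent.Lib.MP_9f2731_nt.GP.Dhj
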