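import Pool.Agent.Lib.MP_9f2731_nt.GP.Dhj.Inc

/-!
MP_9f2731_nt, GP/Dhj/Gsp: the good subspace (helper49).
-/

set_option autoImplicit false

namespace Pool.Agent.Lib.MP_9f2731_nt.GP.Dhj

open Finset M49

theorem gsp_err (k F : ℕ) {e : ℝ} (he : 0 < e) : ∃ N1 : ℕ, 1 ≤ N1 ∧ ∀ N : ℕ, N1 ≤ N →
    ∀ c : ℕ, c ≤ F → (c : ℝ) * Real.sqrt ((k : ℝ) / N) + 3 * (c : ℝ) ^ 2 / N ≤ e := by
  set d : ℝ := e / (2 * (F + 1)) with hd
  have hF : (0 : ℝ) < F + 1 := by positivity
  have hd0 : 0 < d := by positivity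
  obtain ⟨a, ha⟩ := exists_nat_ge ((k : ℝ) / d ^ 2)
  obtain ⟨b, hb⟩ := exists_nat_ge (6 * (F : ℝ) ^ 2 / e)
  refine ⟨a + b + 1, by omega, fun N hN c hc => ?_⟩
  have hNr : ((a : ℝ) + b + 1) ≤ N := by exact_mod_cast hN
  have ha0 := Nat.cast_nonneg (α := ℝ) a
  have hb0 := Nat.cast_nonneg (α := ℝ) b
  have hN0 : (0 : ℝ) < N := by linarith
  have hcF : (c : ℝ) ≤ F := by exact_mod_cast hc
  have hc0 := Nat.cast_nonneg (α := ℝ) c
  have h1 : Real.sqrt ((k : ℝ) / N) ≤ d := by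
    rw [Real.sqrt_le_left hd0.le, div_le_iff₀ hN0]
    rw [div_le_iff₀ (by positivity)] at ha
    have : (a : ℝ) * d ^ 2 ≤ d ^ 2 * N := by
      rw [mul_comm]
      exact mul_le_mul_of_nonneg_left (by linarith) (by positivity)
    linarith
  have h2 : (c : ℝ) * Real.sqrt ((k : ℝ) / N) ≤ e / 2 := by
    have h3 : (c : ℝ) * Real.sqrt ((k : ℝ) / N) ≤ (F + 1) * d :=
      mul_le_mul (by linarith) h1 (Real.sqrt_nonneg _) hF.le
    have h4 : ((F : ℝ) + 1) * d = e / 2 := by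
      rw [hd]
      field_simp
    linarith
  have h3 : 3 * (c : ℝ) ^ 2 / N ≤ e / 2 := by
    rw [div_le_iff₀ hN0]
    rw [div_le_iff₀ he] at hb
    have h4 : (c : ℝ) ^ 2 ≤ (F : ℝ) ^ 2 := pow_le_pow_left₀ hc0 hcF 2
    have h5 : (b : ℝ) * e ≤ N * e := mul_le_mul_of_nonneg_right (by linarith) he.le
    linarith
  linarith

theorem gsp_res {a b : ℕ} (h : a ≤ b) (u : Fin b → ℕ) (J : Finset (Fin a)) :
    ∑ j ∈ J, u (Fin.castLE h j) = ∑ j ∈ J.map (Fin.castLEEmb h), u j := by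
  rw [Finset.sum_map]
  rfl

theorem gsp_res_le {a b : ℕ} (h : a ≤ b) (u : Fin b → ℕ) :
    ∑ j, u (Fin.castLE h j) ≤ ∑ j, u j := by
  rw [gsp_res h u univ]
  exact Finset.sum_le_sum_of_subset (Finset.subset_univ _)

open Classical in
/-- the word of the places `T` -/
noncomputable def gspW {ι : Type} {k m : ℕ} {u : Fin m → ℕ} (x : ι → Fin (k + 1))
    (T : (Σ j : Fin m, Fin (u j)) → ι) : ι → Fin (k + 1) ⊕ Fin m :=
  fun t => if h : ∃ l, T l = t then Sum.inr (Classical.choose h).1 else Sum.inl (x t)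

theorem gspW_ful {ι : Type} {k m : ℕ} {u : Fin m → ℕ} (hu : ∀ j, 1 ≤ u j) (x : ι → Fin (k + 1))
    {T : (Σ j : Fin m, Fin (u j)) → ι} (hT : Function.Injective T) : Ful (gspW x T) := by
  intro j
  have h : ∃ l, T l = T ⟨j, ⟨0, hu j⟩⟩ := ⟨_, rfl⟩
  refine ⟨T ⟨j, ⟨0, hu j⟩⟩, ?_⟩
  unfold gspW
  rw [dif_pos h, hT (Classical.choose_spec h)]

theorem gspW_sub {ι : Type} {k m : ℕ} {u : Fin m → ℕ} (x : ι → Fin (k + 1))
    (T : (Σ j : Fin m, Fin (u j)) → ι) (y : Fin m → Fin (k + 1)) :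
    sub (gspW x T) y = pt x T (fun l => y l.1) := by
  funext t
  unfold sub gspW pt
  by_cases h : ∃ l, T l = t
  · rw [dif_pos h, dif_pos h]
    rfl
  · rw [dif_neg h, dif_neg h]
    rfl

theorem gsp_core (h1 : NinStmt) (h2 : PtStmt) (h3 : CmpStmt) {k m : ℕ} {θ γ1 e : ℝ}
    (hθ0 : 0 < θ) (hγ1 : 0 < γ1) (he1 : e ≤ θ / 24) (he2 : e ≤ γ1 * θ / 48)
    (hpow : ((k : ℝ) / (k + 1)) ^ m ≤ 1 / 2)
    (ι : Type) [Fintype ι] [DecidableEq ι] [Nonempty ι] (A : (ι → Fin (k + 1)) → Prop)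
    (u : Fin m → ℕ) (hu1 : ∀ j, 1 ≤ u j)
    (herr : ((∑ j, u j : ℕ) : ℝ) * Real.sqrt ((k : ℝ) / Fintype.card ι) +
      3 * ((∑ j, u j : ℕ) : ℝ) ^ 2 / Fintype.card ι ≤ e)
    (hP : ∀ J : Finset (Fin m), J.Nonempty → θ ≤ hh A (∑ j ∈ J, u j)) :
    (∃ w : ι → Fin (k + 1) ⊕ Fin m, Ful w ∧ pr A + γ1 * θ / 24 ≤ pr (fun y => A (sub w y))) ∨
    ∃ w : ι → Fin (k + 1) ⊕ Fin m, Ful w ∧ pr A - γ1 ≤ pr (fun y => A (sub w y)) ∧
      θ / 6 ≤ pr (fun y : Fin m → Fin (k + 1) => (∃ j, y j = Fin.last k) ∧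
        ∀ i : Fin k, A (sub w (rp i y))) := by
  classical
  by_contra hcon
  push Not at hcon
  obtain ⟨hc1, hc2⟩ := hcon
  have hcard : Fintype.card (Σ j : Fin m, Fin (u j)) = ∑ j, u j := by simp
  have hn0 : 0 ≤ ((∑ j, u j : ℕ) : ℝ) * Real.sqrt ((k : ℝ) / Fintype.card ι) := by positivity
  have hn1 : 0 ≤ ((∑ j, u j : ℕ) : ℝ) ^ 2 / (Fintype.card ι : ℝ) := by positivity
  have hn2 : 3 * ((∑ j, u j : ℕ) : ℝ) ^ 2 / (Fintype.card ι : ℝ) =
      3 * (((∑ j, u j : ℕ) : ℝ) ^ 2 / (Fintype.card ι : ℝ)) := mul_div_assoc _ _ _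
  have he0 : 0 ≤ e := by linarith
  set Z : (ι → Fin (k + 1)) × ((Σ j : Fin m, Fin (u j)) → ι) → ℝ := fun p =>
    pr (fun y : Fin m → Fin (k + 1) => A (pt p.1 p.2 (fun l => y l.1))) with hZdef
  set Q : (ι → Fin (k + 1)) × ((Σ j : Fin m, Fin (u j)) → ι) → ℝ := fun p =>
    pr (fun y : Fin m → Fin (k + 1) => (∃ j, y j = Fin.last k) ∧
      ∀ i : Fin k, A (pt p.1 p.2 (fun l => rp i y l.1))) with hQdef
  have hZ : pr A - e ≤ mn Z := by
    have e1 : mn Z = mn (fun y : Fin m → Fin (k + 1) =>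
        mn (fun p : (ι → Fin (k + 1)) × ((Σ j : Fin m, Fin (u j)) → ι) =>
          ci (A (pt p.1 p.2 (fun l => y l.1))) 1)) := mn_swap _
    rw [e1]
    refine le_mn fun y => ?_
    have h := h2 k ι (Σ j : Fin m, Fin (u j)) (fun l => y l.1) (fun x => ci (A x) 1)
      (fun x => by
        by_cases h : A x
        · simp [ci_pos h]
        · simp [ci_neg h])
    rw [hcard] at h
    have h' := (abs_le.1 h).1
    rw [pr_ci]
    linarith
  have hQ : θ / 3 ≤ mn Q := by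
    have e1 : mn Q = mn (fun y : Fin m → Fin (k + 1) =>
        pr (fun p : (ι → Fin (k + 1)) × ((Σ j : Fin m, Fin (u j)) → ι) =>
          (∃ j, y j = Fin.last k) ∧
            ∀ i : Fin k, A (pt p.1 p.2 (fun l => rp i y l.1)))) := mn_swap _
    rw [e1]
    have e2 : ∀ y : Fin m → Fin (k + 1), ci (∃ j, y j = Fin.last k) (θ - e) ≤
        pr (fun p : (ι → Fin (k + 1)) × ((Σ j : Fin m, Fin (u j)) → ι) =>
          (∃ j, y j = Fin.last k) ∧
            ∀ i : Fin k, A (pt p.1 p.2 (fun l => rp i y l.1))) := by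
      intro y
      by_cases hy : ∃ j, y j = Fin.last k
      · rw [ci_pos hy]
        set J : Finset (Fin m) := univ.filter (fun j => y j = Fin.last k) with hJdef
        have hJ : J.Nonempty := by
          obtain ⟨j, hj⟩ := hy
          exact ⟨j, by simp [hJdef, hj]⟩
        have h := h3 k ι (Σ j : Fin m, Fin (u j)) (J.sigma fun _ => univ) (fun l => y l.1) A
        rw [hcard, Finset.card_sigma] at h
        simp only [Finset.card_univ, Fintype.card_fin] at h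
        have h' := (abs_le.1 h).1
        have hPJ := hP J hJ
        have e3 : pr (fun p : (ι → Fin (k + 1)) × ((Σ j : Fin m, Fin (u j)) → ι) =>
            ∀ i : Fin k, A (pt p.1 p.2 (fun l => if l ∈ J.sigma (fun _ => univ) then i.castSucc
              else y l.1))) = pr (fun p : (ι → Fin (k + 1)) × ((Σ j : Fin m, Fin (u j)) → ι) =>
            (∃ j, y j = Fin.last k) ∧ ∀ i : Fin k, A (pt p.1 p.2 (fun l => rp i y l.1))) := by
          refine pr_congr fun p => ?_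
          have e4 : ∀ i : Fin k, (fun l : (Σ j : Fin m, Fin (u j)) =>
              if l ∈ J.sigma (fun _ => univ) then i.castSucc else y l.1) =
              fun l => rp i y l.1 := by
            intro i
            funext l
            simp [hJdef, rp]
          simp only [e4]
          exact ⟨fun h => ⟨hy, h⟩, fun h => h.2⟩
        rw [e3] at h'
        linarith
      · rw [ci_neg hy]
        exact pr_nonneg _
    refine le_trans ?_ (mn_mono e2)
    have e5 : mn (fun y : Fin m → Fin (k + 1) => ci (∃ j, y j = Fin.last k) (θ - e)) =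
        (θ - e) * pr (fun y : Fin m → Fin (k + 1) => ∃ j, y j = Fin.last k) := by
      rw [pr_ci, ← mn_mul]
      congr 1
      funext y
      by_cases hy : ∃ j, y j = Fin.last k
      · rw [ci_pos hy, ci_pos hy, mul_one]
      · rw [ci_neg hy, ci_neg hy, mul_zero]
    have e6 : 1 / 2 ≤ pr (fun y : Fin m → Fin (k + 1) => ∃ j, y j = Fin.last k) := by
      have h := inc_nolast k m
      rw [pr_not] at h
      linarith
    rw [e5]
    nlinarith
  have hQ1 : θ / 6 ≤ pr (fun p => θ / 6 ≤ Q p) := by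
    have h := markov (f := Q) (c := θ / 6) (by positivity) (fun p => pr_le_one _)
    linarith
  have hp0 : pr (fun p : (ι → Fin (k + 1)) × ((Σ j : Fin m, Fin (u j)) → ι) =>
      ¬ Function.Injective p.2) ≤ e := by
    rw [pr_prod]
    refine mn_le_card he0 fun x => ?_
    have h := h1 ι (Σ j : Fin m, Fin (u j))
    rw [hcard] at h
    linarith
  have hpt : ∀ p, Z p ≤ (pr A + γ1 * θ / 24) + ci (¬ Function.Injective p.2) 1 -
      γ1 * (ci (θ / 6 ≤ Q p) 1 - ci (¬ Function.Injective p.2) 1) := by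
    intro p
    by_cases hT : Function.Injective p.2
    · have hT' : ¬ ¬ Function.Injective p.2 := not_not.2 hT
      have hful := gspW_ful hu1 p.1 hT
      have e1 : pr (fun y => A (sub (gspW p.1 p.2) y)) = Z p := by
        rw [hZdef]
        exact pr_congr fun y => by rw [gspW_sub]
      have e2 : pr (fun y : Fin m → Fin (k + 1) => (∃ j, y j = Fin.last k) ∧
          ∀ i : Fin k, A (sub (gspW p.1 p.2) (rp i y))) = Q p := by
        rw [hQdef]
        refine pr_congr fun y => ?_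
        simp only [gspW_sub]
      have hz := hc1 _ hful
      rw [e1] at hz
      rw [ci_neg hT']
      by_cases hq : θ / 6 ≤ Q p
      · rw [ci_pos hq]
        by_contra hlt
        push Not at hlt
        have h5 : 0 ≤ γ1 * θ / 24 := by positivity
        have h6 := hc2 _ hful (by
          rw [e1]
          linarith)
        rw [e2] at h6
        linarith
      · rw [ci_neg hq]
        linarith
    · rw [ci_pos hT]
      have h5 : ci (θ / 6 ≤ Q p) 1 ≤ 1 := by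
        by_cases hq : θ / 6 ≤ Q p
        · rw [ci_pos hq]
        · rw [ci_neg hq]
          norm_num
      have h6 : Z p ≤ 1 := pr_le_one _
      have h7 := pr_nonneg A
      have h8 : 0 ≤ γ1 * θ / 24 := by positivity
      nlinarith
  have hmean := mn_mono hpt
  rw [mn_sub, mn_add, mn_const, mn_mul, mn_sub, ← pr_ci, ← pr_ci] at hmean
  have h9 : 0 < γ1 * θ := by positivity
  have h10 : γ1 * (θ / 6 - θ / 24) ≤ γ1 * (pr (fun p => θ / 6 ≤ Q p) -
      pr (fun p : (ι → Fin (k + 1)) × ((Σ j : Fin m, Fin (u j)) → ι) =>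
        ¬ Function.Injective p.2)) :=
    mul_le_mul_of_nonneg_left (by linarith) hγ1.le
  nlinarith

theorem pGsp (h1 : NinStmt) (h2 : PtStmt) (h3 : CmpStmt) (h4 : FndStmt) (h5 : FlkStmt) :
    GspStmt := by
  classical
  intro k hk hHJ δ0 hδ0
  obtain ⟨θ, m0, hθ0, hθ1, hm0, hFnd⟩ := h4 k hk hHJ δ0 hδ0
  refine ⟨θ, hθ0, hθ1, fun γ1 hγ1 m' hpow => ?_⟩
  obtain ⟨F, hF⟩ := h5 (max m' m0)
  obtain ⟨N2, hN2⟩ := hFnd F
  obtain ⟨N1, hN1, herr⟩ := gsp_err k F (e := min (θ / 24) (γ1 * θ / 48))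
    (lt_min (by positivity) (by positivity))
  refine ⟨max N1 N2, fun ι _ _ hcard A hA => ?_⟩
  have hc1 : N1 ≤ Fintype.card ι := (le_max_left _ _).trans hcard
  have hc2 : N2 ≤ Fintype.card ι := (le_max_right _ _).trans hcard
  have : Nonempty ι := Fintype.card_pos_iff.1 (by omega)
  obtain ⟨u, hu1, huF, hP⟩ := hF (fun n => θ ≤ hh A n)
  have hP1 : ∀ J : Finset (Fin (max m' m0)), J.Nonempty → θ ≤ hh A (∑ j ∈ J, u j) := by
    rcases hP with hP | hP
    · exact hP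
    · exfalso
      obtain ⟨J, hJ, hJA⟩ := hN2 ι hc2 A hA (fun j => u (Fin.castLE (le_max_right m' m0) j))
        (fun j => hu1 _) ((gsp_res_le (le_max_right m' m0) u).trans huF)
      refine hP (J.map (Fin.castLEEmb (le_max_right m' m0))) (hJ.map) ?_
      show θ ≤ hh A (∑ j ∈ J.map (Fin.castLEEmb (le_max_right m' m0)), u j)
      rw [← gsp_res]
      exact hJA
  refine gsp_core h1 h2 h3 hθ0 hγ1 (min_le_left (θ / 24) (γ1 * θ / 48)) (min_le_right _ _) hpow ι A
    (fun j => u (Fin.castLE (le_max_left m' m0) j)) (fun j => hu1 _)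
    (herr _ hc1 _ ((gsp_res_le (le_max_left m' m0) u).trans huF)) (fun J hJ => ?_)
  rw [gsp_res]
  exact hP1 _ hJ.map

end Pool.Agent.Lib.MP_9f2731_nt.GP.Dhj
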