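import Pool.Agent.Lib.MP_9f2731_nt.GP.Dhj.M49

/-!
MP_9f2731_nt, GP/Dhj/Inc: the density increment (helper49).
-/

set_option autoImplicit false

namespace Pool.Agent.Lib.MP_9f2731_nt.GP.Dhj

open Finset M49

/-- the word with the wildcard at the places of the last letter -/
noncomputable def incW {k n : ℕ} (y : Fin n → Fin (k + 1)) : Fin n → Fin (k + 1) ⊕ Fin 1 :=
  fun j => if y j = Fin.last k then Sum.inr 0 else Sum.inl (y j)

theorem inc_sub {k n : ℕ} (y : Fin n → Fin (k + 1)) (u : Fin 1 → Fin (k + 1)) :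
    sub (incW y) u = fun j => if y j = Fin.last k then u 0 else y j := by
  funext j
  unfold sub incW
  by_cases h : y j = Fin.last k
  · rw [if_pos h, if_pos h]
    rfl
  · rw [if_neg h, if_neg h]
    rfl

theorem inc_line {ι : Type} {k n : ℕ} {A : (ι → Fin (k + 1)) → Prop} {w : ι → Fin (k + 1) ⊕ Fin n}
    (hw : Ful w) {y : Fin n → Fin (k + 1)} (hy : ∃ j, y j = Fin.last k)
    (hD : ∀ l : Fin k, A (sub w (rp l y))) (hA : A (sub w y)) :
    ∃ w : ι → Fin (k + 1) ⊕ Fin 1, Ful w ∧ ∀ y, A (sub w y) := by
  refine ⟨cmp w (incW y), ful_cmp hw ?_, fun u => ?_⟩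
  · intro j
    obtain ⟨t, ht⟩ := hy
    exact ⟨t, by
      rw [incW, if_pos ht]
      congr 1
      exact Subsingleton.elim _ _⟩
  · rw [sub_cmp, inc_sub]
    rcases Fin.eq_castSucc_or_eq_last (u 0) with ⟨l, hl⟩ | hl
    · have : (fun j => if y j = Fin.last k then u 0 else y j) = rp l y := by
        funext j
        unfold rp
        rw [hl]
      rw [this]
      exact hD l
    · have : (fun j => if y j = Fin.last k then u 0 else y j) = y := by
        funext j
        by_cases h : y j = Fin.last k
        · rw [if_pos h, hl, h]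
        · rw [if_neg h]
      rw [this]
      exact hA

theorem inc_nolast (k n : ℕ) : pr (fun y : Fin n → Fin (k + 1) => ¬ ∃ j, y j = Fin.last k) ≤
    ((k : ℝ) / (k + 1)) ^ n := by
  classical
  rw [pr_ci]
  unfold mn
  simp only [← ite_ci]
  rw [Finset.sum_boole]
  have h1 : (univ.filter fun y : Fin n → Fin (k + 1) => ¬ ∃ j, y j = Fin.last k) =
      Fintype.piFinset (fun _ : Fin n => (univ : Finset (Fin (k + 1))).erase (Fin.last k)) := by
    ext y
    simp
  rw [h1, Fintype.card_piFinset]
  simp only [Finset.prod_const, Finset.card_univ, Fintype.card_fin, Fintype.card_fun,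
    Finset.card_erase_of_mem (Finset.mem_univ _), Nat.add_sub_cancel]
  push_cast
  rw [div_pow]

theorem inc_max {k : ℕ} (F : Fin k → ℕ) : ∃ n, ∀ i, F i ≤ n :=
  ⟨univ.sup F, fun i => Finset.le_sup (Finset.mem_univ i)⟩

/-- the first failing condition -/
theorem inc_first {k : ℕ} (D : Fin k → Prop) (r : ℝ) :
    r = ci (∀ l, D l) r + ∑ i, ci ((∀ l < i, D l) ∧ ¬ D i) r := by
  classical
  by_cases h : ∀ l, D l
  · rw [ci_pos h, Finset.sum_eq_zero fun i _ => ci_neg (fun h' => h'.2 (h i)) r, add_zero]
  · rw [ci_neg h, zero_add]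
    have hne : (univ.filter fun i => ¬ D i).Nonempty := by
      push Not at h
      obtain ⟨l, hl⟩ := h
      exact ⟨l, by simp [hl]⟩
    obtain ⟨i, hi, hmin⟩ := Finset.exists_min_image _ id hne
    simp only [Finset.mem_filter, Finset.mem_univ, true_and, id] at hi hmin
    have hB : (∀ l < i, D l) ∧ ¬ D i := ⟨fun l hl => by
      by_contra hc
      exact absurd (hmin l hc) (not_le.2 hl), hi⟩
    rw [Finset.sum_eq_single i, ci_pos hB]
    · intro j _ hj
      refine ci_neg (fun h' => ?_) r
      rcases lt_or_gt_of_ne hj with hlt | hlt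
      · exact h'.2 (hB.1 j hlt)
      · exact hi (h'.1 i hlt)
    · intro h'
      exact absurd (Finset.mem_univ i) h'

theorem inc_pr_first {X : Type} [Fintype X] {k : ℕ} (P : X → Prop) (D : Fin k → X → Prop) :
    pr P = pr (fun x => P x ∧ ∀ l, D l x) +
      ∑ i, pr (fun x => P x ∧ ((∀ l < i, D l x) ∧ ¬ D i x)) := by
  simp only [pr_ci]
  rw [← mn_sum, ← mn_add]
  congr 1
  funext x
  by_cases h : P x
  · rw [ci_pos h]
    refine (inc_first (fun l => D l x) 1).trans ?_
    congr 1
    · exact ci_congr ⟨fun h' => ⟨h, h'⟩, fun h' => h'.2⟩ _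
    · exact Finset.sum_congr rfl fun i _ => ci_congr ⟨fun h' => ⟨h, h'⟩, fun h' => h'.2⟩ _
  · rw [ci_neg h, ci_neg (fun h' => h h'.1), Finset.sum_eq_zero fun i _ => ci_neg (fun h' => h h'.1) _,
      add_zero]

theorem pInc (h1 : DimStmt) (h2 : StrStmt) (h3 : GspStmt) : IncStmt := by
  classical
  intro k hk hHJ δ0 hδ0
  obtain ⟨θ, hθ0, hθ1, hG⟩ := h3 k hk hHJ δ0 hδ0
  have hk0 : (0 : ℝ) < k := by exact_mod_cast hk
  set s : ℝ := δ0 * θ / 30 with hs
  have hs0 : 0 < s := by positivity
  refine ⟨min s (s * θ / 24), lt_min hs0 (by positivity), fun m => ?_⟩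
  set γ : ℝ := min s (s * θ / 24) with hγ
  have hγ0 : 0 < γ := lt_min hs0 (by positivity)
  have hγs : γ ≤ s := min_le_left _ _
  have hγt : γ ≤ s * θ / 24 := min_le_right _ _
  choose nS hnS using fun i : Fin k => h2 k hHJ (univ.filter fun l => l ≤ i) m (s / k)
    (by positivity)
  obtain ⟨n2, hn2⟩ := inc_max nS
  have hq : (k : ℝ) / (k + 1) < 1 := by
    rw [div_lt_one (by positivity)]
    linarith
  have hq0 : 0 ≤ (k : ℝ) / (k + 1) := by positivity
  obtain ⟨m0, hm0⟩ := exists_pow_lt_of_lt_one (show 0 < min (1 / 2) s from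
    lt_min (by norm_num) hs0) hq
  set m' : ℕ := max (max m0 m) n2 with hm'
  have hm0' : m0 ≤ m' := (le_max_left _ _).trans (le_max_left _ _)
  have hmm' : m ≤ m' := (le_max_right _ _).trans (le_max_left _ _)
  have hn2' : n2 ≤ m' := le_max_right _ _
  have hpow : ((k : ℝ) / (k + 1)) ^ m' ≤ min (1 / 2) s :=
    (pow_le_pow_of_le_one hq0 hq.le hm0').trans hm0.le
  obtain ⟨N0, hN0⟩ := hG s hs0 m' (hpow.trans (min_le_left _ _))
  refine ⟨N0, fun ι _ _ hcard A hA hline => ?_⟩
  rcases hN0 ι hcard A hA with ⟨w, hw, hwA⟩ | ⟨w, hw, hwA, hwD⟩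
  · -- first alternative
    obtain ⟨v, hv, hvA⟩ := h1 (k + 1) m (Fin m') (by omega) (by
      rw [Fintype.card_fin]
      exact hmm') (fun y => ci (A (sub w y)) 1)
    refine ⟨cmp w v, ful_cmp hw hv, ?_⟩
    have e1 : pr (fun y => A (sub (cmp w v) y)) = mn (fun y => ci (A (sub w (sub v y))) 1) := by
      rw [pr_ci]
      congr 1
      funext y
      rw [sub_cmp]
    rw [e1]
    refine le_trans ?_ hvA
    rw [← pr_ci]
    linarith
  · -- second alternative
    by_contra hno
    push Not at hno
    set D : Fin k → (Fin m' → Fin (k + 1)) → Prop := fun l y => A (sub w (rp l y)) with hD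
    have hDins : ∀ l, Ins l (D l) := fun l => ins_pre l (fun y => A (sub w y))
    have hDpr : θ / 6 ≤ pr (fun y => ∀ l, D l y) := hwD.trans (pr_mono fun y hy => hy.2)
    -- no lines
    have hno1 : pr (fun y => A (sub w y) ∧ ∀ l, D l y) ≤ s := by
      refine (pr_mono fun y hy => ?_).trans ((inc_nolast k m').trans
        (hpow.trans (min_le_right _ _)))
      exact fun hlast => hline (inc_line hw hlast hy.2 hy.1)
    -- structured parts
    have hstr : ∀ i : Fin k, pr (fun y => A (sub w y) ∧ ((∀ l < i, D l y) ∧ ¬ D i y)) ≤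
        (pr A + γ) * pr (fun y => (∀ l < i, D l y) ∧ ¬ D i y) + s / k := by
      intro i
      set E : Fin k → (Fin m' → Fin (k + 1)) → Prop := fun l y =>
        if l = i then ¬ D i y else D l y with hE
      have hEins : ∀ l ∈ univ.filter (fun l => l ≤ i), Ins l (E l) := by
        intro l _ y
        simp only [hE]
        by_cases hl : l = i
        · subst hl
          simp only [if_true]
          exact not_congr (hDins l y)
        · simp only [if_neg hl]
          exact hDins l y
      have hiff : ∀ y, (∀ l ∈ univ.filter (fun l => l ≤ i), E l y) ↔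
          ((∀ l < i, D l y) ∧ ¬ D i y) := by
        intro y
        simp only [Finset.mem_filter, Finset.mem_univ, true_and, hE]
        constructor
        · intro h
          refine ⟨fun l hl => ?_, ?_⟩
          · have := h l hl.le
            rwa [if_neg hl.ne] at this
          · have := h i le_rfl
            rwa [if_pos rfl] at this
        · rintro ⟨h4, h5⟩ l hl
          by_cases hli : l = i
          · rw [if_pos hli]
            exact h5
          · rw [if_neg hli]
            exact h4 l (lt_of_le_of_ne hl hli)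
      have h6 := hnS i (Fin m') (by
        rw [Fintype.card_fin]
        exact (hn2 i).trans hn2') E hEins (fun y => ci (A (sub w y)) 1) (pr A + γ)
        (fun y => by
          by_cases h : A (sub w y)
          · simp [ci_pos h]
          · simp [ci_neg h]) (add_nonneg (pr_nonneg A) hγ0.le)
        (fun v hv _ => by
          have h7 := hno (cmp w v) (ful_cmp hw hv)
          have e1 : pr (fun y => A (sub (cmp w v) y)) =
              mn (fun y => ci (A (sub w (sub v y))) 1) := by
            rw [pr_ci]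
            congr 1
            funext y
            rw [sub_cmp]
          rw [e1] at h7
          exact h7.le)
      simp only [ite_ci] at h6
      have e2 : pr (fun x => ∀ l ∈ univ.filter (fun l => l ≤ i), E l x) =
          pr (fun y => (∀ l < i, D l y) ∧ ¬ D i y) := pr_congr hiff
      have e3 : mn (fun x => ci (∀ l ∈ univ.filter (fun l => l ≤ i), E l x)
          (ci (A (sub w x)) 1)) = pr (fun y => A (sub w y) ∧ ((∀ l < i, D l y) ∧ ¬ D i y)) := by
        rw [pr_ci]
        congr 1
        funext y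
        rw [ci_congr (hiff y)]
        by_cases h8 : (∀ l < i, D l y) ∧ ¬ D i y
        · rw [ci_pos h8]
          exact ci_congr ⟨fun h => ⟨h, h8⟩, fun h => h.1⟩ _
        · rw [ci_neg h8, ci_neg (fun h => h8 h.2)]
      rw [e2, e3] at h6
      exact h6
    have hA1 := inc_pr_first (fun y => A (sub w y)) D
    have hA2 := inc_pr_first (fun _ : Fin m' → Fin (k + 1) => True) D
    rw [pr_true] at hA2
    simp only [true_and] at hA2
    have hsum := Finset.sum_le_sum fun i (_ : i ∈ (univ : Finset (Fin k))) => hstr i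
    rw [Finset.sum_add_distrib, ← Finset.mul_sum, Finset.sum_const, Finset.card_univ,
      Fintype.card_fin, nsmul_eq_mul, mul_div_cancel₀ _ hk0.ne'] at hsum
    set S1 : ℝ := ∑ i : Fin k, pr (fun y => (∀ l < i, D l y) ∧ ¬ D i y) with hS
    have hS1 : S1 ≤ 1 - θ / 6 := by linarith
    have hpA := pr_le_one A
    have hpA0 := pr_nonneg A
    have h9 := mul_le_mul_of_nonneg_left hS1 (add_nonneg hpA0 hγ0.le)
    have h10 : δ0 * θ ≤ pr A * θ := mul_le_mul_of_nonneg_right hA hθ0.le
    have h11 : 0 ≤ γ * θ := by positivity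
    have h12 : δ0 * θ = 30 * s := by rw [hs]; ring
    nlinarith

end Pool.Agent.Lib.MP_9f2731_nt.GP.Dhj
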