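import Pool.Agent.Lib.MP_9f2731_nt.GP.Dhj.Spec

/-!
MP_9f2731_nt, GP/Dhj, module Ite: iteration of the density increment.
-/

namespace Pool.Agent.Lib.MP_9f2731_nt.GP.Dhj

open Finset

private theorem Ite_all {X : Type} [Fintype X] (P : X → Prop) (h : 1 ≤ pr P) : ∀ x, P x := by
  classical
  intro x
  by_contra hx
  have hpos : (0 : ℝ) < (Fintype.card X : ℝ) := by
    haveI : Nonempty X := ⟨x⟩
    exact_mod_cast Fintype.card_pos
  unfold pr mn at h
  rw [le_div_iff₀ hpos, one_mul] at h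
  have h1 : ∑ y : X, (if P y then (1 : ℝ) else 0) < ∑ _y : X, (1 : ℝ) := by
    apply Finset.sum_lt_sum
    · intro y _
      split_ifs <;> norm_num
    · exact ⟨x, Finset.mem_univ x, by rw [if_neg hx]; norm_num⟩
  have h2 : ∑ _y : X, (1 : ℝ) = (Fintype.card X : ℝ) := by
    rw [Finset.sum_const, Finset.card_univ, nsmul_eq_mul, mul_one]
  rw [h2] at h1
  have h3 : ∑ y : X, (if P y then (1 : ℝ) else 0) = ∑ y : X, @ite ℝ (P y)
      (Classical.propDecidable (P y)) 1 0 := Finset.sum_congr rfl fun y _ => by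
    split_ifs <;> rfl
  linarith

theorem pIte (h1 : IncStmt) : IteStmt := by
  intro k hk hHJ δ hδ
  obtain ⟨γ, hγ, hinc⟩ := h1 k hk hHJ δ hδ
  have claim : ∀ j : ℕ, ∃ n : ℕ, ∀ (ι : Type) [Fintype ι] [DecidableEq ι], n ≤ Fintype.card ι →
      ∀ A : (ι → Fin (k + 1)) → Prop, δ ≤ pr A → 1 - j * γ ≤ pr A →
      ∃ w : ι → Fin (k + 1) ⊕ Fin 1, Ful w ∧ ∀ y : Fin 1 → Fin (k + 1), A (sub w y) := by
    intro j
    induction j with
    | zero =>
      refine ⟨1, fun ι _ _ hc A _ hA1 => ?_⟩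
      have hA : ∀ x, A x := Ite_all A (by simpa using hA1)
      haveI : Nonempty ι := Fintype.card_pos_iff.mp (by omega)
      refine ⟨fun _ => Sum.inr 0, fun j => ⟨Classical.arbitrary ι, ?_⟩, fun y => hA _⟩
      rw [Subsingleton.elim j 0]
    | succ j ih =>
      obtain ⟨nj, hnj⟩ := ih
      obtain ⟨n, hn⟩ := hinc nj
      refine ⟨n, fun ι _ _ hc A hA hA1 => ?_⟩
      by_cases hline : ∃ w : ι → Fin (k + 1) ⊕ Fin 1, Ful w ∧ ∀ y, A (sub w y)
      · exact hline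
      · obtain ⟨w, hw, hwp⟩ := hn ι hc A hA hline
        obtain ⟨v, hv, hvp⟩ := hnj (Fin nj) (by rw [Fintype.card_fin])
          (fun y => A (sub w y)) (by linarith) (by push_cast at hA1; linarith)
        refine ⟨cmp w v, ful_cmp hw hv, fun y => ?_⟩
        rw [sub_cmp]
        exact hvp y
  obtain ⟨j, hj⟩ := exists_nat_ge (1 / γ)
  obtain ⟨n, hn⟩ := claim j
  refine ⟨n, fun ι _ _ hc A hA => ?_⟩
  have h2 : 1 ≤ j * γ := by
    rw [div_le_iff₀ hγ] at hj
    exact hj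
  exact hn ι hc A hA (by linarith)

end Pool.Agent.Lib.MP_9f2731_nt.GP.Dhj
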