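import Pool.Agent.Lib.MP_9f2731_nt.GP.Dhj.Spec

/-!
MP_9f2731_nt, GP/Dhj/Mul: dimension one gives all dimensions.
-/

namespace Pool.Agent.Lib.MP_9f2731_nt.GP.Dhj

open Finset

private theorem Mul_mn_equiv {X Y : Type} [Fintype X] [Fintype Y] (e : X ≃ Y) (f : Y → ℝ) :
    mn (fun x => f (e x)) = mn f := by
  unfold mn
  rw [Equiv.sum_comp e f, Fintype.card_congr e]

private theorem Mul_mn_prod {X Y : Type} [Fintype X] [Fintype Y] (f : X × Y → ℝ) :
    mn f = mn (fun y => mn (fun x => f (x, y))) := by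
  unfold mn
  rw [Fintype.sum_prod_type_right, Fintype.card_prod, ← Finset.sum_div, div_div]
  push_cast
  rfl

private theorem Mul_mn_mono {X : Type} [Fintype X] {f g : X → ℝ} (h : ∀ x, f x ≤ g x) :
    mn f ≤ mn g := by
  unfold mn
  exact div_le_div_of_nonneg_right (Finset.sum_le_sum fun x _ => h x) (Nat.cast_nonneg _)

private theorem Mul_mn_add {X : Type} [Fintype X] (f g : X → ℝ) :
    mn (fun x => f x + g x) = mn f + mn g := by
  unfold mn
  rw [Finset.sum_add_distrib, add_div]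

private theorem Mul_mn_const {X : Type} [Fintype X] {c : ℝ} (hc : 0 ≤ c) :
    mn (fun _ : X => c) ≤ c := by
  unfold mn
  rw [Finset.sum_const, Finset.card_univ, nsmul_eq_mul]
  rcases Nat.eq_zero_or_pos (Fintype.card X) with h | h
  · rw [h]
    simpa using hc
  · have h1 : (0 : ℝ) < Fintype.card X := by exact_mod_cast h
    rw [mul_div_assoc, mul_comm, div_mul_cancel₀ _ h1.ne']

private theorem Mul_mn_sum {X W : Type} [Fintype X] [Fintype W] (f : W → X → ℝ) :
    mn (fun x => ∑ w, f w x) = ∑ w, mn (f w) := by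
  unfold mn
  rw [Finset.sum_comm, Finset.sum_div]

private theorem Mul_exists {X : Type} [Fintype X] {P : X → Prop} (h : 0 < pr P) : ∃ x, P x := by
  by_contra hcon
  push Not at hcon
  have h1 : pr P = 0 := by
    unfold pr mn
    rw [Finset.sum_eq_zero fun x _ => if_neg (hcon x), zero_div]
  rw [h1] at h
  exact lt_irrefl _ h

private theorem Mul_pr_le_one {X : Type} [Fintype X] (P : X → Prop) : pr P ≤ 1 := by
  classical
  unfold pr
  refine (Mul_mn_mono (g := fun _ => 1) fun x => ?_).trans (Mul_mn_const zero_le_one)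
  split_ifs
  · exact le_rfl
  · exact zero_le_one

private theorem Mul_markov {X : Type} [Fintype X] {g : X → ℝ} {δ : ℝ} (hδ : 0 ≤ δ)
    (h1 : ∀ x, g x ≤ 1) (h : δ ≤ mn g) : δ / 2 ≤ pr (fun x => δ / 2 ≤ g x) := by
  classical
  have h2 : mn g ≤ mn (fun x => (if δ / 2 ≤ g x then (1 : ℝ) else 0) + δ / 2) := by
    refine Mul_mn_mono fun x => ?_
    by_cases hx : δ / 2 ≤ g x
    · rw [if_pos hx]
      linarith [h1 x]
    · rw [if_neg hx]
      push Not at hx
      linarith
  rw [Mul_mn_add] at h2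
  have h3 : mn (fun _ : X => δ / 2) ≤ δ / 2 := Mul_mn_const (by linarith)
  have h4 : mn (fun x => if δ / 2 ≤ g x then (1 : ℝ) else 0) = pr (fun x => δ / 2 ≤ g x) := by
    unfold pr
    exact congrArg mn (funext fun x => by split_ifs <;> rfl)
  rw [h4] at h2
  linarith

private theorem Mul_pigeon {X W : Type} [Fintype X] [Fintype W] (P : X → Prop) (Q : W → X → Prop)
    (hPQ : ∀ x, P x → ∃ w, Q w x) {δ : ℝ} (hδ : 0 < δ) (h : δ / 2 ≤ pr P) :
    ∃ w, δ / (2 * ((Fintype.card W : ℝ) + 1)) ≤ pr (Q w) := by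
  classical
  by_contra hcon
  push Not at hcon
  have h1 : pr P ≤ ∑ w, pr (Q w) := by
    unfold pr
    rw [← Mul_mn_sum]
    refine Mul_mn_mono fun x => ?_
    by_cases hx : P x
    · rw [if_pos hx]
      obtain ⟨w, hw⟩ := hPQ x hx
      refine le_trans ?_ (Finset.single_le_sum (f := fun w => if Q w x then (1 : ℝ) else 0)
        (fun w _ => ?_) (Finset.mem_univ w))
      · show (1 : ℝ) ≤ if Q w x then (1 : ℝ) else 0
        rw [if_pos hw]
      · show (0 : ℝ) ≤ if Q w x then (1 : ℝ) else 0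
        split_ifs
        · exact zero_le_one
        · exact le_rfl
    · rw [if_neg hx]
      refine Finset.sum_nonneg fun w _ => ?_
      split_ifs
      · exact zero_le_one
      · exact le_rfl
  have h2 : ∑ w, pr (Q w) ≤ ∑ _w : W, δ / (2 * ((Fintype.card W : ℝ) + 1)) :=
    Finset.sum_le_sum fun w _ => (hcon w).le
  rw [Finset.sum_const, Finset.card_univ, nsmul_eq_mul] at h2
  have h3 : (0 : ℝ) ≤ Fintype.card W := Nat.cast_nonneg _
  have h4 : (Fintype.card W : ℝ) * (δ / (2 * ((Fintype.card W : ℝ) + 1))) < δ / 2 := by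
    rw [← mul_div_assoc, div_lt_div_iff₀ (by positivity) (by norm_num)]
    nlinarith
  linarith

/-- the point of `ι` with the given values -/
private def Mul_pnt {ι : Type} {k a c : ℕ} (e : Fin a ⊕ Fin c ≃ ι) (y : Fin a → Fin k)
    (x : Fin c → Fin k) : ι → Fin k := fun t => Sum.elim y x (e.symm t)

private theorem Mul_pr_pnt {ι : Type} [Fintype ι] [DecidableEq ι] {k a c : ℕ}
    (e : Fin a ⊕ Fin c ≃ ι) (A : (ι → Fin k) → Prop) :
    pr A = mn (fun x : Fin c → Fin k => pr (fun y : Fin a → Fin k => A (Mul_pnt e y x))) := by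
  classical
  unfold pr
  rw [← Mul_mn_prod (fun p : (Fin a → Fin k) × (Fin c → Fin k) =>
    if A (Mul_pnt e p.1 p.2) then (1 : ℝ) else 0)]
  let E : (Fin a → Fin k) × (Fin c → Fin k) ≃ (ι → Fin k) :=
    (Equiv.sumArrowEquivProdArrow (Fin a) (Fin c) (Fin k)).symm.trans
      (Equiv.arrowCongr e (Equiv.refl (Fin k)))
  rw [← Mul_mn_equiv E]
  rfl

theorem pMul : MulStmt := by
  intro k hk m
  induction m with
  | zero =>
    intro δ hδ
    refine ⟨0, ?_⟩
    intro ι _ _ _ A hA
    obtain ⟨x, hx⟩ := Mul_exists (lt_of_lt_of_le hδ hA)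
    exact ⟨fun t => Sum.inl (x t), fun j => j.elim0, fun y => hx⟩
  | succ m ih =>
    intro δ hδ
    obtain ⟨a, ha⟩ := ih (δ / 2) (by linarith)
    have hK : (0 : ℝ) < 2 * ((Fintype.card (Fin a → Fin k ⊕ Fin m) : ℝ) + 1) := by positivity
    obtain ⟨b, hb⟩ := hk (δ / (2 * ((Fintype.card (Fin a → Fin k ⊕ Fin m) : ℝ) + 1)))
      (div_pos hδ hK)
    refine ⟨a + b, ?_⟩
    intro ι _ _ hι A hA
    obtain ⟨c, hc⟩ : ∃ c, Fintype.card ι = a + c := ⟨Fintype.card ι - a, by omega⟩
    have hbc : b ≤ c := by omega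
    let e : Fin a ⊕ Fin c ≃ ι :=
      finSumFinEquiv.trans ((finCongr hc.symm).trans (Fintype.equivFin ι).symm)
    rw [Mul_pr_pnt e A] at hA
    have h1 := Mul_markov hδ.le (fun x => Mul_pr_le_one _) hA
    obtain ⟨w0, hw0⟩ := Mul_pigeon _
      (fun (w : Fin a → Fin k ⊕ Fin m) (x : Fin c → Fin k) =>
        Ful w ∧ ∀ y : Fin m → Fin k, A (Mul_pnt e (sub w y) x))
      (fun x hx => ha (Fin a) (by simp) (fun y => A (Mul_pnt e y x)) hx) hδ h1
    obtain ⟨x0, hx0, -⟩ := Mul_exists (lt_of_lt_of_le (div_pos hδ hK) hw0)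
    obtain ⟨v, hv, hv'⟩ := hb (Fin c) (by simpa using hbc) _ hw0
    refine ⟨fun t => Sum.elim (fun s => Sum.map id Fin.castSucc (w0 s))
      (fun s => Sum.map id (fun _ => Fin.last m) (v s)) (e.symm t), ?_, ?_⟩
    · intro j
      refine Fin.lastCases ?_ (fun j' => ?_) j
      · obtain ⟨s, hs⟩ := hv 0
        refine ⟨e (Sum.inr s), ?_⟩
        simp [hs]
      · obtain ⟨s, hs⟩ := hx0 j'
        refine ⟨e (Sum.inl s), ?_⟩
        simp [hs]
    · intro y
      have h2 := (hv' fun _ => y (Fin.last m)).2 fun j => y j.castSucc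
      have h3 : sub (fun t => Sum.elim (fun s => Sum.map id Fin.castSucc (w0 s))
          (fun s => Sum.map id (fun _ => Fin.last m) (v s)) (e.symm t)) y
          = Mul_pnt e (sub w0 fun j => y j.castSucc) (sub v fun _ => y (Fin.last m)) := by
        funext t
        unfold sub Mul_pnt
        cases h4 : e.symm t with
        | inl s =>
          cases h5 : w0 s with
          | inl p => simp [h4, h5]
          | inr p => simp [h4, h5]
        | inr s =>
          cases h5 : v s with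
          | inl p => simp [h4, h5]
          | inr p => simp [h4, h5]
      rw [h3]
      exact h2

end Pool.Agent.Lib.MP_9f2731_nt.GP.Dhj
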