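import Pool.Agent.Lib.MP_9f2731_nt.GP.Dhj.Spec

/-!
MP_9f2731_nt, GP/Dhj, module Nin: random maps are injective with high probability.
-/

namespace Pool.Agent.Lib.MP_9f2731_nt.GP.Dhj

open Finset

private theorem Nin_avg {ι ρ : Type} [Fintype ι] [DecidableEq ι] [Fintype ρ] [DecidableEq ρ] (l : ρ)
    (g : (ρ → ι) → ℝ) :
    ∑ T : ρ → ι, ∑ b : ι, g (Function.update T l b) = (Fintype.card ι : ℝ) * ∑ T, g T := by
  have hσ : Function.Involutive (fun p : (ρ → ι) × ι => (Function.update p.1 l p.2, p.1 l)) := by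
    intro p
    ext1
    · simp
    · simp
  have h := Equiv.sum_comp (hσ.toPerm _) (fun p : (ρ → ι) × ι => g p.1)
  simp only [Function.Involutive.coe_toPerm, Fintype.sum_prod_type] at h
  rw [h]
  simp [Finset.mul_sum]

private theorem Nin_pair {ι ρ : Type} [Fintype ι] [DecidableEq ι] [Fintype ρ] [DecidableEq ρ]
    {l l' : ρ} (hl : l ≠ l') :
    (Fintype.card ι : ℝ) * ∑ T : ρ → ι, (if T l = T l' then (1 : ℝ) else 0) =
      (Fintype.card (ρ → ι) : ℝ) := by
  rw [← Nin_avg l]
  have h : ∀ T : ρ → ι, ∑ b : ι, (if (Function.update T l b) l = (Function.update T l b) l' then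
      (1 : ℝ) else 0) = 1 := by
    intro T
    simp only [Function.update_self, Function.update_of_ne (Ne.symm hl)]
    simp
  rw [Finset.sum_congr rfl fun T _ => h T]
  simp

theorem pNin : NinStmt := by
  classical
  intro ι ρ _ _ _ _ _
  have hN : (0 : ℝ) < (Fintype.card ι : ℝ) := by exact_mod_cast Fintype.card_pos
  have hC : (0 : ℝ) < (Fintype.card (ρ → ι) : ℝ) := by exact_mod_cast Fintype.card_pos
  have h1 : ∀ T : ρ → ι, (if ¬ Function.Injective T then (1 : ℝ) else 0) ≤
      ∑ l : ρ, ∑ l' : ρ, (if l ≠ l' then (if T l = T l' then (1 : ℝ) else 0) else 0) := by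
    intro T
    have hnn : ∀ l l' : ρ, 0 ≤ (if l ≠ l' then (if T l = T l' then (1 : ℝ) else 0) else 0) := by
      intro l l'
      split_ifs <;> norm_num
    by_cases hT : Function.Injective T
    · rw [if_neg (not_not.mpr hT)]
      exact Finset.sum_nonneg fun l _ => Finset.sum_nonneg fun l' _ => hnn l l'
    · rw [if_pos hT]
      obtain ⟨l, l', h2, h3⟩ : ∃ l l', T l = T l' ∧ l ≠ l' := by
        unfold Function.Injective at hT
        push Not at hT
        exact hT
      calc (1 : ℝ) = (if l ≠ l' then (if T l = T l' then (1 : ℝ) else 0) else 0) := by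
            rw [if_pos h3, if_pos h2]
        _ ≤ ∑ l' : ρ, (if l ≠ l' then (if T l = T l' then (1 : ℝ) else 0) else 0) :=
            Finset.single_le_sum (fun m _ => hnn l m) (Finset.mem_univ l')
        _ ≤ _ := Finset.single_le_sum
            (f := fun l => ∑ l' : ρ, (if l ≠ l' then (if T l = T l' then (1 : ℝ) else 0) else 0))
            (fun m _ => Finset.sum_nonneg fun l' _ => hnn m l') (Finset.mem_univ l)
  have h2 : ∀ l l' : ρ, ∑ T : ρ → ι,
      (if l ≠ l' then (if T l = T l' then (1 : ℝ) else 0) else 0) ≤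
      (Fintype.card (ρ → ι) : ℝ) / Fintype.card ι := by
    intro l l'
    by_cases h : l ≠ l'
    · simp only [if_pos h]
      rw [le_div_iff₀ hN, mul_comm, Nin_pair h]
    · simp only [if_neg h, Finset.sum_const_zero]
      positivity
  have h3 : ∑ T : ρ → ι, (if ¬ Function.Injective T then (1 : ℝ) else 0) ≤
      (Fintype.card ρ : ℝ) ^ 2 / Fintype.card ι * (Fintype.card (ρ → ι) : ℝ) := by
    refine (Finset.sum_le_sum fun T _ => h1 T).trans ?_
    rw [Finset.sum_comm]
    have h4 : ∀ l : ρ, ∑ T : ρ → ι, ∑ l' : ρ,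
        (if l ≠ l' then (if T l = T l' then (1 : ℝ) else 0) else 0) ≤
        (Fintype.card ρ : ℝ) * ((Fintype.card (ρ → ι) : ℝ) / Fintype.card ι) := by
      intro l
      rw [Finset.sum_comm]
      refine (Finset.sum_le_sum fun l' _ => h2 l l').trans (le_of_eq ?_)
      rw [Finset.sum_const, Finset.card_univ, nsmul_eq_mul]
    refine (Finset.sum_le_sum fun l _ => h4 l).trans (le_of_eq ?_)
    rw [Finset.sum_const, Finset.card_univ, nsmul_eq_mul]
    ring
  unfold pr mn
  rw [div_le_iff₀ hC]
  refine le_trans (le_of_eq ?_) h3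
  refine Finset.sum_congr rfl fun T _ => ?_
  beta_reduce
  split_ifs <;> rfl

end Pool.Agent.Lib.MP_9f2731_nt.GP.Dhj
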