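import Pool.Agent.Lib.MP_9f2731_nt.GP.Dhj.Spec

/-!
MP_9f2731_nt, GP/Dhj, module One (helper9): one random place filled with a fixed letter.
-/

namespace Pool.Agent.Lib.MP_9f2731_nt.GP.Dhj

open Finset

private theorem one_avg {k : ℕ} {ι : Type} [Fintype ι] [DecidableEq ι] (t : ι)
    (g : (ι → Fin (k + 1)) → ℝ) :
    ∑ x : ι → Fin (k + 1), ∑ b : Fin (k + 1), g (Function.update x t b)
      = ((k : ℝ) + 1) * ∑ x, g x := by
  have hσ : Function.Involutive (fun p : (ι → Fin (k + 1)) × Fin (k + 1) =>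
      (Function.update p.1 t p.2, p.1 t)) := by
    intro p
    ext1
    · simp
    · simp
  have h := Equiv.sum_comp (hσ.toPerm _) (fun p : (ι → Fin (k + 1)) × Fin (k + 1) => g p.1)
  simp only [Function.Involutive.coe_toPerm, Fintype.sum_prod_type] at h
  rw [h]
  simp [Finset.mul_sum]

private theorem one_ins {k : ℕ} {ι : Type} [Fintype ι] [DecidableEq ι] (a : Fin (k + 1)) (t : ι)
    (f : (ι → Fin (k + 1)) → ℝ) :
    ∑ x : ι → Fin (k + 1), f (Function.update x t a)
      = ((k : ℝ) + 1) * ∑ x, f x * (if x t = a then (1 : ℝ) else 0) := by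
  rw [← one_avg t]
  refine Finset.sum_congr rfl fun x _ => ?_
  simp

private theorem one_cross {k : ℕ} {ι : Type} [Fintype ι] [DecidableEq ι] (a : Fin (k + 1))
    {s t : ι} (hst : s ≠ t) :
    ∑ x : ι → Fin (k + 1), (((k : ℝ) + 1) * (if x s = a then (1 : ℝ) else 0) - 1)
      * (((k : ℝ) + 1) * (if x t = a then (1 : ℝ) else 0) - 1) = 0 := by
  have h := one_avg t (fun x : ι → Fin (k + 1) => (((k : ℝ) + 1) * (if x s = a then (1 : ℝ) else 0) - 1)
      * (((k : ℝ) + 1) * (if x t = a then (1 : ℝ) else 0) - 1))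
  have h2 : ∀ x : ι → Fin (k + 1), ∑ b : Fin (k + 1),
      (((k : ℝ) + 1) * (if Function.update x t b s = a then (1 : ℝ) else 0) - 1)
      * (((k : ℝ) + 1) * (if Function.update x t b t = a then (1 : ℝ) else 0) - 1) = 0 := by
    intro x
    simp only [Function.update_of_ne hst, Function.update_self]
    rw [← Finset.mul_sum, Finset.sum_sub_distrib, ← Finset.mul_sum]
    simp
  simp only [h2, Finset.sum_const_zero] at h
  have hk : ((k : ℝ) + 1) ≠ 0 := by positivity
  exact (mul_eq_zero.1 h.symm).resolve_left hk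

private theorem one_diag {k : ℕ} {ι : Type} [Fintype ι] [DecidableEq ι] (a : Fin (k + 1))
    (t : ι) :
    ∑ x : ι → Fin (k + 1), (((k : ℝ) + 1) * (if x t = a then (1 : ℝ) else 0) - 1)
      * (((k : ℝ) + 1) * (if x t = a then (1 : ℝ) else 0) - 1)
      = k * (Fintype.card (ι → Fin (k + 1)) : ℝ) := by
  have h := one_avg t (fun x : ι → Fin (k + 1) => (((k : ℝ) + 1) * (if x t = a then (1 : ℝ) else 0) - 1)
      * (((k : ℝ) + 1) * (if x t = a then (1 : ℝ) else 0) - 1))
  have h2 : ∀ x : ι → Fin (k + 1), ∑ b : Fin (k + 1),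
      (((k : ℝ) + 1) * (if Function.update x t b t = a then (1 : ℝ) else 0) - 1)
      * (((k : ℝ) + 1) * (if Function.update x t b t = a then (1 : ℝ) else 0) - 1)
      = k * (k + 1) := by
    intro x
    simp only [Function.update_self]
    have h3 : ∀ b : Fin (k + 1), (((k : ℝ) + 1) * (if b = a then (1 : ℝ) else 0) - 1)
      * (((k : ℝ) + 1) * (if b = a then (1 : ℝ) else 0) - 1)
      = (((k : ℝ) + 1) ^ 2 - 2 * ((k : ℝ) + 1)) * (if b = a then (1 : ℝ) else 0) + 1 := by
      intro b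
      split_ifs <;> ring
    simp only [h3, Finset.sum_add_distrib, ← Finset.mul_sum]
    simp
    ring
  simp only [h2, Finset.sum_const, Finset.card_univ, nsmul_eq_mul] at h
  have hk : ((k : ℝ) + 1) ≠ 0 := by positivity
  have h4 : ((k : ℝ) + 1) * (k * (Fintype.card (ι → Fin (k + 1)) : ℝ)) = ((k : ℝ) + 1) *
      ∑ x : ι → Fin (k + 1), (((k : ℝ) + 1) * (if x t = a then (1 : ℝ) else 0) - 1)
      * (((k : ℝ) + 1) * (if x t = a then (1 : ℝ) else 0) - 1) := by
    rw [← h]; ring
  exact (mul_left_cancel₀ hk h4).symm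

theorem pOne : OneStmt := by
  intro k ι _ _ _ a f hf
  set N : ℝ := (Fintype.card ι : ℝ) with hNd
  have hN : 0 < N := by
    rw [hNd]; exact_mod_cast Fintype.card_pos
  set Q : ℝ := (Fintype.card (ι → Fin (k + 1)) : ℝ) with hQd
  have hQ : 0 < Q := by
    rw [hQd]; exact_mod_cast Fintype.card_pos
  set h : ι → (ι → Fin (k + 1)) → ℝ := fun t x =>
    ((k : ℝ) + 1) * (if x t = a then (1 : ℝ) else 0) - 1 with hh
  set H : (ι → Fin (k + 1)) → ℝ := fun x => ∑ t, h t x with hH
  have e1 : mn (fun p : (ι → Fin (k + 1)) × ι => f (Function.update p.1 p.2 a)) - mn f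
      = (∑ x, f x * H x) / (Q * N) := by
    unfold mn
    rw [Fintype.sum_prod_type, Finset.sum_comm, Fintype.card_prod]
    push_cast
    rw [← hNd, ← hQd]
    have e2 : ∑ t : ι, ∑ x : ι → Fin (k + 1), f (Function.update x t a)
        = (∑ x, f x * H x) + N * ∑ x, f x := by
      have e3 : ∀ t : ι, ∑ x : ι → Fin (k + 1), f (Function.update x t a)
          = (∑ x, f x * h t x) + ∑ x, f x := by
        intro t
        rw [one_ins, Finset.mul_sum, ← Finset.sum_add_distrib]
        refine Finset.sum_congr rfl fun x _ => ?_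
        simp only [hh]
        ring
      simp only [e3, Finset.sum_add_distrib, hH, Finset.mul_sum]
      rw [Finset.sum_comm]
      simp [hNd, Finset.mul_sum]
    rw [e2]
    field_simp
    ring
  have e4 : ∑ x, H x ^ 2 = N * (k * Q) := by
    have e5 : ∀ x, H x ^ 2 = ∑ s, ∑ t, h s x * h t x := by
      intro x
      rw [hH, pow_two]
      exact Finset.sum_mul_sum _ _ _ _
    simp only [e5]
    rw [Finset.sum_comm]
    have e6 : ∀ s, ∑ x, ∑ t, h s x * h t x = k * Q := by
      intro s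
      rw [Finset.sum_comm, Finset.sum_eq_single s]
      · exact one_diag a s
      · intro t _ hts
        exact one_cross a (Ne.symm hts)
      · intro hs
        exact absurd (Finset.mem_univ s) hs
    simp only [e6, Finset.sum_const, Finset.card_univ, nsmul_eq_mul]
    rfl
  have e7 : ∑ x, f x ^ 2 ≤ Q := by
    calc ∑ x, f x ^ 2 ≤ ∑ _x : ι → Fin (k + 1), (1 : ℝ) :=
          Finset.sum_le_sum fun x _ => by
            have := hf x
            nlinarith [this.1, this.2]
      _ = Q := by simp [hQd]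
  have e8 : (∑ x, f x * H x) ^ 2 ≤ Q * (N * (k * Q)) := by
    calc (∑ x, f x * H x) ^ 2 ≤ (∑ x, f x ^ 2) * ∑ x, H x ^ 2 :=
          Finset.sum_mul_sq_le_sq_mul_sq _ _ _
      _ ≤ Q * ∑ x, H x ^ 2 :=
          mul_le_mul_of_nonneg_right e7 (Finset.sum_nonneg fun x _ => sq_nonneg _)
      _ = _ := by rw [e4]
  rw [e1]
  apply Real.abs_le_sqrt
  rw [div_pow]
  calc (∑ x, f x * H x) ^ 2 / (Q * N) ^ 2 ≤ Q * (N * (k * Q)) / (Q * N) ^ 2 := by
        gcongr
    _ = k / N := by
        field_simp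

end Pool.Agent.Lib.MP_9f2731_nt.GP.Dhj
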