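import Pool.Agent.Lib.MP_9f2731_nt.GP.Dhj.M49

/-!
MP_9f2731_nt, GP/Dhj/Par: partition of insensitive sets into subspaces (helper49).
-/

set_option autoImplicit false

namespace Pool.Agent.Lib.MP_9f2731_nt.GP.Dhj

open Finset M49

theorem par_img {V Y : Type} [Fintype V] [Fintype Y] {φ : V → Y} (hφ : Function.Injective φ)
    (g : Y → ℝ) : ∑ y, ci (∃ v, φ v = y) (g y) = ∑ v, g (φ v) := by
  classical
  simp only [← ite_ci]
  rw [← Finset.sum_filter]
  have h : (univ.filter fun y => ∃ v, φ v = y) = univ.map ⟨φ, hφ⟩ := by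
    ext y
    simp
  rw [h, Finset.sum_map]
  rfl

theorem par_mn {V Y : Type} [Fintype V] [Fintype Y] [Nonempty V] {φ : V → Y}
    (hφ : Function.Injective φ) (g : Y → ℝ) {d : ℝ} (h : mn (fun v => g (φ v)) ≤ d) :
    mn (fun y => ci (∃ v, φ v = y) (g y)) ≤ d * pr (fun y => ∃ v, φ v = y) := by
  have hV : (0 : ℝ) < Fintype.card V := Nat.cast_pos.2 Fintype.card_pos
  have h1 : ∑ v, g (φ v) ≤ d * Fintype.card V := by
    unfold mn at h
    rwa [div_le_iff₀ hV] at h
  rw [pr_ci]
  unfold mn
  rw [par_img hφ g, par_img hφ (fun _ => (1 : ℝ))]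
  rw [Finset.sum_const, Finset.card_univ, nsmul_eq_mul, mul_one, ← mul_div_assoc]
  exact div_le_div_of_nonneg_right h1 (Nat.cast_nonneg _)

theorem par_pr {V Y : Type} [Fintype V] [Fintype Y] [Nonempty V] {φ : V → Y}
    (hφ : Function.Injective φ) : 1 / (Fintype.card Y : ℝ) ≤ pr (fun y => ∃ v, φ v = y) := by
  rw [pr_ci]
  unfold mn
  rw [par_img hφ (fun _ => (1 : ℝ)), Finset.sum_const, Finset.card_univ, nsmul_eq_mul, mul_one]
  refine div_le_div_of_nonneg_right ?_ (Nat.cast_nonneg _)
  exact_mod_cast Fintype.card_pos (α := V)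

theorem par_and {X Y : Type} [Fintype X] [Fintype Y] (U : X → Prop) (Z : Y → Prop) :
    mn (fun y => pr (fun z => U y ∧ Z z)) = pr U * pr Z := by
  have h1 : ∀ y, pr (fun z => U y ∧ Z z) = pr Z * ci (U y) 1 := by
    intro y
    by_cases h : U y
    · rw [ci_pos h, mul_one]
      exact pr_congr fun z => by simp [h]
    · rw [ci_neg h, mul_zero]
      unfold pr mn
      simp [h]
  simp only [h1]
  rw [mn_mul, mul_comm]
  rfl

theorem par_claim {k m M : ℕ} {η c : ℝ} (hη : 0 < η) (hc0 : 0 ≤ c) (hc1 : c ≤ 1)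
    (hc : c ≤ (1 / (Fintype.card (Fin M → Fin (k + 1)) : ℝ)) *
      ((η / 4) / (Fintype.card (Fin M → Fin (k + 1) ⊕ Fin m) : ℝ)))
    (hF : ∀ (i : Fin k) (E : (Fin M → Fin (k + 1)) → Prop), Ins i E → η / 4 ≤ pr E →
      ∃ w : Fin M → Fin (k + 1) ⊕ Fin m, Ful w ∧ ∀ y, E (sub w y)) (R : ℕ) :
    ∀ (ι : Type) [Fintype ι] [DecidableEq ι], R * M ≤ Fintype.card ι →
    ∀ (i : Fin k) (E : (ι → Fin (k + 1)) → Prop), Ins i E →
    ∀ (b : (ι → Fin (k + 1)) → ℝ) (δ' : ℝ), (∀ x, b x ≤ 1) → 0 ≤ δ' →
    (∀ w : ι → Fin (k + 1) ⊕ Fin m, Ful w → (∀ y, E (sub w y)) → mn (fun y => b (sub w y)) ≤ δ') →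
    mn (fun x => ci (E x) (b x)) ≤ δ' * pr E + η / 2 + (1 - c) ^ R * pr E := by
  induction R with
  | zero =>
    intro ι _ _ _ i E hE b δ' hb hδ _
    have h1 : mn (fun x => ci (E x) (b x)) ≤ pr E := by
      refine mn_mono fun x => ?_
      by_cases h : E x
      · rw [ci_pos h, if_pos h]
        exact hb x
      · rw [ci_neg h, if_neg h]
    have h2 := mul_nonneg hδ (pr_nonneg E)
    rw [pow_zero, one_mul]
    linarith
  | succ R ih =>
    intro ι _ _ hcard i E hE b δ' hb hδ hw
    have hbE : mn (fun x => ci (E x) (b x)) ≤ pr E := by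
      refine mn_mono fun x => ?_
      by_cases h : E x
      · rw [ci_pos h, if_pos h]
        exact hb x
      · rw [ci_neg h, if_neg h]
    have hδE := mul_nonneg hδ (pr_nonneg E)
    have hpow : 0 ≤ (1 - c) ^ (R + 1) := pow_nonneg (by linarith) _
    rcases lt_or_ge (pr E) (η / 2) with hlt | hge
    · have := mul_nonneg hpow (pr_nonneg E)
      linarith
    have hM : M ≤ Fintype.card ι := by
      refine le_trans ?_ hcard
      rw [Nat.succ_mul]
      omega
    obtain ⟨e⟩ := exists_split ι M hM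
    have hκ : R * M ≤ Fintype.card (Fin (Fintype.card ι - M)) := by
      rw [Fintype.card_fin]
      rw [Nat.succ_mul] at hcard
      omega
    -- the density of the fibres
    have hprE : pr E = mn (fun z : Fin (Fintype.card ι - M) → Fin (k + 1) =>
        pr (fun y : Fin M → Fin (k + 1) => E (jn e y z))) := by
      rw [← pr_equiv (spl (Fin (k + 1)) e) E, pr_prod']
      rfl
    have hD : η / 4 ≤ pr (fun z : Fin (Fintype.card ι - M) → Fin (k + 1) =>
        η / 4 ≤ pr (fun y : Fin M → Fin (k + 1) => E (jn e y z))) := by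
      have h3 := markov (f := fun z : Fin (Fintype.card ι - M) → Fin (k + 1) =>
        pr (fun y : Fin M → Fin (k + 1) => E (jn e y z))) (c := η / 4) (by positivity)
        (fun z => pr_le_one _)
      rw [← hprE] at h3
      linarith
    obtain ⟨w0, hw0⟩ := pigeon (W := Fin M → Fin (k + 1) ⊕ Fin m)
      (K := (Fintype.card (Fin M → Fin (k + 1) ⊕ Fin m) : ℝ)) (by positivity : 0 < η / 4) hD
      (fun w z => Ful w ∧ ∀ v, E (jn e (sub w v) z))
      (fun z hz => hF i (fun y => E (jn e y z)) (ins_left e hE z) hz) le_rfl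
    have hKpos : (0 : ℝ) < Fintype.card (Fin M → Fin (k + 1) ⊕ Fin m) :=
      Nat.cast_pos.2 Fintype.card_pos
    have hful : Ful w0 := by
      obtain ⟨z, hz⟩ := pr_exists ((by positivity : (0 : ℝ) < η / 4 /
        (Fintype.card (Fin M → Fin (k + 1) ⊕ Fin m) : ℝ)).trans_le hw0)
      exact hz.1
    have hinj := sub_inj hful
    set Z : (Fin (Fintype.card ι - M) → Fin (k + 1)) → Prop := fun z =>
      ∀ v, E (jn e (sub w0 v) z) with hZ
    set U : (Fin M → Fin (k + 1)) → Prop := fun y => ∃ v, sub w0 v = y with hU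
    have hprZ : η / 4 / (Fintype.card (Fin M → Fin (k + 1) ⊕ Fin m) : ℝ) ≤ pr Z :=
      hw0.trans (pr_mono fun z hz => hz.2)
    have hprU : 1 / (Fintype.card (Fin M → Fin (k + 1)) : ℝ) ≤ pr U := par_pr hinj
    have hP : c ≤ mn (fun y => pr (fun z => U y ∧ Z z)) := by
      rw [par_and]
      refine hc.trans (mul_le_mul hprU hprZ (by positivity) (pr_nonneg _))
    -- the part in `U × Z`
    have hB : mn (fun y => mn (fun z => ci (U y ∧ Z z) (b (jn e y z)))) ≤
        δ' * mn (fun y => pr (fun z => U y ∧ Z z)) := by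
      rw [mn_swap]
      have h4 : mn (fun y => pr (fun z => U y ∧ Z z)) = mn (fun z => pr (fun y => U y ∧ Z z)) := by
        unfold pr
        exact mn_swap _
      rw [h4, ← mn_mul]
      refine mn_mono fun z => ?_
      by_cases hz : Z z
      · have h5 := par_mn hinj (fun y => b (jn e y z)) (d := δ') (by
          have h6 := hw (wl e w0 z) (ful_wl e hful z) (fun v => by rw [sub_wl]; exact hz v)
          simp only [sub_wl] at h6
          exact h6)
        have h7 : (fun y => ci (U y ∧ Z z) (b (jn e y z))) =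
            fun y => ci (∃ v, sub w0 v = y) (b (jn e y z)) := by
          funext y
          exact ci_congr ⟨fun h => h.1, fun h => ⟨h, hz⟩⟩ _
        rw [h7]
        refine h5.trans (le_of_eq ?_)
        congr 1
        exact pr_congr fun y => ⟨fun h => ⟨h, hz⟩, fun h => h.1⟩
      · have h7 : (fun y => ci (U y ∧ Z z) (b (jn e y z))) = fun _ => 0 := by
          funext y
          exact ci_neg (fun h => hz h.2) _
        rw [h7]
        have h8 : mn (fun _ : Fin M → Fin (k + 1) => (0 : ℝ)) = 0 := by simp [mn]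
        rw [h8]
        exact mul_nonneg hδ (pr_nonneg _)
    -- the rest
    set E' : (Fin M → Fin (k + 1)) → (Fin (Fintype.card ι - M) → Fin (k + 1)) → Prop :=
      fun y z => E (jn e y z) ∧ ¬ (U y ∧ Z z) with hE'
    have hC : ∀ y, mn (fun z => ci (E' y z) (b (jn e y z))) ≤
        δ' * pr (E' y) + η / 2 + (1 - c) ^ R * pr (E' y) := by
      intro y
      refine ih (Fin (Fintype.card ι - M)) hκ i (E' y) ?_ (fun z => b (jn e y z)) δ'
        (fun z => hb _) hδ ?_
      · intro z
        have h9 : ∀ y, E (jn e y (rp i z)) ↔ E (jn e y z) := fun y => ins_right e hE y z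
        simp only [hE', hZ, h9]
      · intro w hfw hwE
        have h10 := hw (wr e y w) (ful_wr e y hfw) (fun v => by rw [sub_wr]; exact (hwE v).1)
        simp only [sub_wr] at h10
        exact h10
    have hC2 : mn (fun y => mn (fun z => ci (E' y z) (b (jn e y z)))) ≤
        δ' * mn (fun y => pr (E' y)) + η / 2 + (1 - c) ^ R * mn (fun y => pr (E' y)) := by
      refine (mn_mono hC).trans (le_of_eq ?_)
      rw [mn_add (fun y => δ' * pr (E' y) + η / 2), mn_add (fun y => δ' * pr (E' y)), mn_mul,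
        mn_mul, mn_const]
    have hsp : ∀ y z (r : ℝ), ci (E (jn e y z)) r = ci (U y ∧ Z z) r + ci (E' y z) r := by
      intro y z r
      by_cases h11 : U y ∧ Z z
      · have h12 : E (jn e y z) := by
          obtain ⟨⟨v, rfl⟩, h13⟩ := h11
          exact h13 v
        rw [ci_pos h11, ci_neg (fun h : E' y z => h.2 h11), ci_pos h12, add_zero]
      · rw [ci_neg h11, zero_add]
        by_cases h12 : E (jn e y z)
        · rw [ci_pos h12, ci_pos (show E' y z from ⟨h12, h11⟩)]
        · rw [ci_neg h12, ci_neg (fun h : E' y z => h12 h.1)]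
    have hsplit : mn (fun x => ci (E x) (b x)) =
        mn (fun y => mn (fun z => ci (U y ∧ Z z) (b (jn e y z)))) +
        mn (fun y => mn (fun z => ci (E' y z) (b (jn e y z)))) := by
      rw [← mn_equiv (spl (Fin (k + 1)) e) (fun x => ci (E x) (b x)), mn_prod, ← mn_add]
      congr 1
      funext y
      rw [← mn_add]
      congr 1
      funext z
      exact hsp y z _
    have hsplit2 : pr E = mn (fun y => pr (fun z => U y ∧ Z z)) + mn (fun y => pr (E' y)) := by
      rw [← pr_equiv (spl (Fin (k + 1)) e) E, pr_prod, ← mn_add]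
      congr 1
      funext y
      rw [pr_ci, pr_ci, pr_ci, ← mn_add]
      congr 1
      funext z
      exact hsp y z _
    have hprle := pr_le_one E
    have hpc : c * pr E ≤ c := by nlinarith
    have hP' : mn (fun y => pr (E' y)) ≤ (1 - c) * pr E := by linarith
    have hpowR : 0 ≤ (1 - c) ^ R := pow_nonneg (by linarith) _
    have hlast := mul_le_mul_of_nonneg_left hP' hpowR
    rw [hsplit]
    have e1 : (1 - c) ^ (R + 1) * pr E = (1 - c) ^ R * ((1 - c) * pr E) := by ring
    rw [e1]
    have e2 : δ' * pr E = δ' * mn (fun y => pr (fun z => U y ∧ Z z)) +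
        δ' * mn (fun y => pr (E' y)) := by
      rw [← mul_add, ← hsplit2]
    linarith

theorem pPar (h1 : FibStmt) : ParStmt := by
  intro k hk m η hη
  obtain ⟨M, hM⟩ := h1 k hk m (η / 4) (by positivity)
  set c : ℝ := min 1 ((1 / (Fintype.card (Fin M → Fin (k + 1)) : ℝ)) *
      ((η / 4) / (Fintype.card (Fin M → Fin (k + 1) ⊕ Fin m) : ℝ))) with hc
  have hK1 : (0 : ℝ) < Fintype.card (Fin M → Fin (k + 1)) := Nat.cast_pos.2 Fintype.card_pos
  have hK2 : (0 : ℝ) < Fintype.card (Fin M → Fin (k + 1) ⊕ Fin m) :=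
    Nat.cast_pos.2 Fintype.card_pos
  have hc0 : 0 < c := lt_min one_pos (by positivity)
  have hc1 : c ≤ 1 := min_le_left _ _
  obtain ⟨R, hR⟩ := exists_pow_lt_of_lt_one (show 0 < η / 2 by positivity)
    (show 1 - c < 1 by linarith)
  refine ⟨R * M, fun ι _ _ hcard i E hE b δ' hb hδ hw => ?_⟩
  have h2 := par_claim hη hc0.le hc1 (min_le_right _ _)
    (fun i E hE hη4 => hM (Fin M) (le_of_eq (Fintype.card_fin M).symm) i E hE hη4) R ι hcard i E hE
    b δ' hb hδ hw
  have h3 := pr_nonneg E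
  have h4 := pr_le_one E
  have h5 : 0 ≤ (1 - c) ^ R := pow_nonneg (by linarith) _
  have h6 : (1 - c) ^ R * pr E ≤ η / 2 := by nlinarith
  show mn (fun x => ci (E x) (b x)) ≤ δ' * pr E + η
  linarith

end Pool.Agent.Lib.MP_9f2731_nt.GP.Dhj
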