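import Pool.Agent.Lib.MP_9f2731_nt.GP.Dhj.Spec

/-!
MP_9f2731_nt, GP/Dhj, module Str: intersections of insensitive sets.
-/

namespace Pool.Agent.Lib.MP_9f2731_nt.GP.Dhj

open Finset

private theorem Str_sub {X : Type} [Fintype X] (f g : X → ℝ) :
    mn (fun x => f x - g x) = mn f - mn g := by
  unfold mn
  rw [Finset.sum_sub_distrib, sub_div]

private theorem Str_mul {X : Type} [Fintype X] (c : ℝ) (f : X → ℝ) :
    mn (fun x => c * f x) = c * mn f := by
  unfold mn
  rw [← Finset.mul_sum, mul_div_assoc]

private theorem Str_one {X : Type} [Fintype X] [Nonempty X] (P : X → Prop) (h : ∀ x, P x) :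
    pr P = 1 := by
  classical
  have hpos : (0 : ℝ) < (Fintype.card X : ℝ) := by exact_mod_cast Fintype.card_pos
  unfold pr mn
  simp only [h, if_true]
  rw [Finset.sum_const, Finset.card_univ, nsmul_eq_mul, mul_one, div_self (ne_of_gt hpos)]

private theorem Str_le {X : Type} [Fintype X] (P : X → Prop) : pr P ≤ 1 := by
  classical
  unfold pr mn
  apply div_le_one_of_le₀ _ (Nat.cast_nonneg _)
  have h2 : ∑ _y : X, (1 : ℝ) = (Fintype.card X : ℝ) := by
    rw [Finset.sum_const, Finset.card_univ, nsmul_eq_mul, mul_one]
  rw [← h2]
  apply Finset.sum_le_sum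
  intro y _
  split_ifs <;> norm_num

open Classical in
/-- the difference of the two sides -/
private theorem Str_dif {X : Type} [Fintype X] (P : X → Prop) (a : X → ℝ) (c : ℝ) :
    mn (fun x => if P x then a x - c else 0) = mn (fun x => if P x then a x else 0) - c * pr P := by
  unfold pr
  rw [← Str_mul, ← Str_sub]
  refine congrArg mn (funext fun x => ?_)
  split_ifs <;> ring

theorem pStr (h1 : DimStmt) (h2 : ParStmt) : StrStmt := by
  classical
  intro k hHJ I
  induction I using Finset.induction_on with
  | empty =>
    intro m η hη
    refine ⟨m, fun ι _ _ hc E _ a δ' ha hδ' hw => ?_⟩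
    obtain ⟨w, hw1, hw2⟩ := h1 (k + 1) m ι (by omega) hc a
    have h3 := hw w hw1 (fun y i hi => absurd hi (Finset.notMem_empty i))
    have h4 : pr (fun x : ι → Fin (k + 1) => ∀ i ∈ (∅ : Finset (Fin k)), E i x) = 1 :=
      Str_one _ fun x i hi => absurd hi (Finset.notMem_empty i)
    have h5 : mn (fun x : ι → Fin (k + 1) => if ∀ i ∈ (∅ : Finset (Fin k)), E i x then a x else 0) =
        mn a := by
      refine congrArg mn (funext fun x => ?_)
      rw [if_pos]
      exact fun i hi => absurd hi (Finset.notMem_empty i)
    rw [h4]
    refine le_trans (le_of_eq ?_) (show mn a ≤ δ' * 1 + η by linarith)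
    exact h5
  | insert i I hi ih =>
    intro m η hη
    obtain ⟨n1, hn1⟩ := ih m (η / 2) (by linarith)
    obtain ⟨n, hn⟩ := h2 k hHJ n1 (η / 4) (by linarith)
    refine ⟨n, fun ι _ _ hc E hE a δ' ha hδ' hw => ?_⟩
    have h3 := hn ι hc i (E i) (hE i (Finset.mem_insert_self i I))
      (fun x => if ∀ l ∈ I, E l x then a x - δ' else 0) (η / 2)
      (fun x => by
        show (if ∀ l ∈ I, E l x then a x - δ' else 0) ≤ 1
        split_ifs
        · have := (ha x).2
          linarith
        · norm_num) (by linarith)
      (fun w hwf hwE => by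
        have h4 := hn1 (Fin n1) (by rw [Fintype.card_fin]) (fun l y => E l (sub w y))
          (fun l hl => ins_sub (hE l (Finset.mem_insert_of_mem hl)) w) (fun y => a (sub w y)) δ'
          (fun y => ha _) hδ'
          (fun v hv hvE => by
            have h5 := hw (cmp w v) (ful_cmp hwf hv) (fun y l hl => by
              rw [sub_cmp]
              rcases Finset.mem_insert.mp hl with rfl | hl
              · exact hwE _
              · exact hvE y l hl)
            have h6 : (fun y => a (sub (cmp w v) y)) = fun y => a (sub w (sub v y)) := by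
              funext y
              rw [sub_cmp]
            rw [h6] at h5
            exact h5)
        have h7 := Str_dif (fun y : Fin n1 → Fin (k + 1) => ∀ l ∈ I, E l (sub w y))
          (fun y => a (sub w y)) δ'
        have h8 : mn (fun y : Fin n1 → Fin (k + 1) =>
            if ∀ l ∈ I, E l (sub w y) then a (sub w y) - δ' else 0) =
            mn (fun y : Fin n1 → Fin (k + 1) =>
              @ite ℝ (∀ l ∈ I, E l (sub w y)) (Classical.propDecidable _)
                (a (sub w y) - δ') 0) := by
          refine congrArg mn (funext fun x => ?_)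
          split_ifs <;> rfl
        have h9 : mn (fun y : Fin n1 → Fin (k + 1) =>
            if ∀ l ∈ I, E l (sub w y) then a (sub w y) else 0) =
            mn (fun y : Fin n1 → Fin (k + 1) =>
              @ite ℝ (∀ l ∈ I, E l (sub w y)) (Classical.propDecidable _)
                (a (sub w y)) 0) := by
          refine congrArg mn (funext fun x => ?_)
          split_ifs <;> rfl
        refine le_trans (le_of_eq h8) ?_
        rw [h7, ← h9]
        linarith)
    have h10 := Str_le (E i)
    have h11 : mn (fun x => if E i x then (if ∀ l ∈ I, E l x then a x - δ' else 0) else 0) =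
        mn (fun x => @ite ℝ (∀ l ∈ insert i I, E l x) (Classical.propDecidable _) (a x - δ') 0) := by
      refine congrArg mn (funext fun x => ?_)
      by_cases h12 : E i x
      · by_cases h13 : ∀ l ∈ I, E l x
        · have h14 : ∀ l ∈ insert i I, E l x := by
            intro l hl
            rcases Finset.mem_insert.mp hl with rfl | hl
            · exact h12
            · exact h13 l hl
          rw [if_pos h12, if_pos h13, if_pos h14]
        · have h14 : ¬ ∀ l ∈ insert i I, E l x := fun h =>
            h13 fun l hl => h l (Finset.mem_insert_of_mem hl)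
          rw [if_pos h12, if_neg h13, if_neg h14]
      · have h14 : ¬ ∀ l ∈ insert i I, E l x := fun h => h12 (h i (Finset.mem_insert_self i I))
        rw [if_neg h12, if_neg h14]
    have h15 := Str_dif (fun x : ι → Fin (k + 1) => ∀ l ∈ insert i I, E l x) a δ'
    have h16 : mn (fun x => if E i x then (if ∀ l ∈ I, E l x then a x - δ' else 0) else 0) ≤
        η / 2 * pr (E i) + η / 4 := by
      refine le_trans (le_of_eq ?_) h3
      refine congrArg mn (funext fun x => ?_)
      split_ifs <;> rfl
    rw [h11, h15] at h16
    have h17 : mn (fun x => if ∀ l ∈ insert i I, E l x then a x else 0) =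
        mn (fun x => @ite ℝ (∀ l ∈ insert i I, E l x) (Classical.propDecidable _) (a x) 0) := by
      refine congrArg mn (funext fun x => ?_)
      split_ifs <;> rfl
    refine le_trans (le_of_eq h17) ?_
    have h18 : η / 2 * pr (E i) ≤ η / 2 := by nlinarith
    linarith

end Pool.Agent.Lib.MP_9f2731_nt.GP.Dhj
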