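import Pool.Agent.Lib.MP_9f2731_nt.GP.Dhj.Bse
import Pool.Agent.Lib.MP_9f2731_nt.GP.Dhj.Mul
import Pool.Agent.Lib.MP_9f2731_nt.GP.Dhj.Dim
import Pool.Agent.Lib.MP_9f2731_nt.GP.Dhj.Fib
import Pool.Agent.Lib.MP_9f2731_nt.GP.Dhj.Par
import Pool.Agent.Lib.MP_9f2731_nt.GP.Dhj.Str
import Pool.Agent.Lib.MP_9f2731_nt.GP.Dhj.One
import Pool.Agent.Lib.MP_9f2731_nt.GP.Dhj.Nin
import Pool.Agent.Lib.MP_9f2731_nt.GP.Dhj.Pt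
import Pool.Agent.Lib.MP_9f2731_nt.GP.Dhj.Cmp
import Pool.Agent.Lib.MP_9f2731_nt.GP.Dhj.Fnd
import Pool.Agent.Lib.MP_9f2731_nt.GP.Dhj.Flk
import Pool.Agent.Lib.MP_9f2731_nt.GP.Dhj.Gsp
import Pool.Agent.Lib.MP_9f2731_nt.GP.Dhj.Inc
import Pool.Agent.Lib.MP_9f2731_nt.GP.Dhj.Ite
import Pool.Agent.Lib.MP_9f2731_nt.GP.Dhj.Fnl

/-!
MP_9f2731_nt, GP/Dhj: the density Hales-Jewett theorem.
-/

namespace Pool.Agent.Lib.MP_9f2731_nt.GP.Dhj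

theorem dhjAll : DhjStmt := by
  have aPar := pPar pFib
  have aStr := pStr pDim aPar
  have aPt := pPt pOne pNin
  have aCmp := pCmp pNin aPt
  have aFnd := pFnd aPt aCmp
  have aGsp := pGsp pNin aPt aCmp aFnd pFlk
  have aInc := pInc pDim aStr aGsp
  exact pFnl pBse pMul (pIte aInc)

end Pool.Agent.Lib.MP_9f2731_nt.GP.Dhj
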