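import Pool.Agent.Lib.MP_9f2731_nt.GP.Defs

/-!
MP_9f2731_nt, GP/Dhj (helper78): density Hales-Jewett theorem; definitions and basic lemmas.
Coordinates form a finite type ι, letters are Fin k, subspaces are words `w : ι → α ⊕ μ` (letter or wildcard).
-/

namespace Pool.Agent.Lib.MP_9f2731_nt.GP.Dhj

open Finset

/-- mean over a finite type -/
noncomputable def mn {X : Type} [Fintype X] (f : X → ℝ) : ℝ := (∑ x, f x) / (Fintype.card X : ℝ)

open Classical in
/-- probability in a finite type -/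
noncomputable def pr {X : Type} [Fintype X] (P : X → Prop) : ℝ :=
  mn (fun x => if P x then (1 : ℝ) else 0)

/-- point of the subspace of the word w -/
def sub {ι α μ : Type} (w : ι → α ⊕ μ) (y : μ → α) : ι → α := fun t => Sum.elim id y (w t)

/-- all wildcards occur -/
def Ful {ι α μ : Type} (w : ι → α ⊕ μ) : Prop := ∀ j, ∃ t, w t = Sum.inr j

/-- composition of words -/
def cmp {ι α μ ρ : Type} (w : ι → α ⊕ μ) (v : μ → α ⊕ ρ) : ι → α ⊕ ρ :=
  fun t => Sum.elim Sum.inl v (w t)

theorem sub_cmp {ι α μ ρ : Type} (w : ι → α ⊕ μ) (v : μ → α ⊕ ρ) (y : ρ → α) :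
    sub (cmp w v) y = sub w (sub v y) := by
  funext t
  unfold sub cmp
  cases h : w t <;> simp

theorem ful_cmp {ι α μ ρ : Type} {w : ι → α ⊕ μ} {v : μ → α ⊕ ρ} (hw : Ful w) (hv : Ful v) :
    Ful (cmp w v) := by
  intro j
  obtain ⟨s, hs⟩ := hv j
  obtain ⟨t, ht⟩ := hw s
  exact ⟨t, by simp [cmp, ht, hs]⟩

/-- Multidimensional density Hales-Jewett for the alphabet Fin k, dimension m, density δ, from length n on. -/
def MH (k m : ℕ) (δ : ℝ) (n : ℕ) : Prop :=
  ∀ (ι : Type) [Fintype ι] [DecidableEq ι], n ≤ Fintype.card ι → ∀ A : (ι → Fin k) → Prop,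
    δ ≤ pr A → ∃ w : ι → Fin k ⊕ Fin m, Ful w ∧ ∀ y : Fin m → Fin k, A (sub w y)

/-- density Hales-Jewett in all dimensions for the alphabet Fin k -/
def HJ (k : ℕ) : Prop := ∀ (m : ℕ) (δ : ℝ), 0 < δ → ∃ n : ℕ, MH k m δ n

theorem MH.mono {k m n n' : ℕ} {δ : ℝ} (h : MH k m δ n) (hn : n ≤ n') : MH k m δ n' := by
  intro ι _ _ hc A hA
  exact h ι (le_trans hn hc) A hA

/-- replace the last letter by i -/
def rp {ι : Type} {k : ℕ} (i : Fin k) (x : ι → Fin (k + 1)) : ι → Fin (k + 1) :=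
  fun t => if x t = Fin.last k then i.castSucc else x t

/-- insensitive to the exchange of i and the last letter -/
def Ins {ι : Type} {k : ℕ} (i : Fin k) (E : (ι → Fin (k + 1)) → Prop) : Prop :=
  ∀ x, E (rp i x) ↔ E x

theorem rp_rp {ι : Type} {k : ℕ} (i : Fin k) (x : ι → Fin (k + 1)) : rp i (rp i x) = rp i x := by
  funext t
  unfold rp
  by_cases h : x t = Fin.last k
  · simp [h, (Fin.castSucc_lt_last i).ne]
  · simp [h]

theorem rp_sub {ι μ : Type} {k : ℕ} (i : Fin k) (w : ι → Fin (k + 1) ⊕ μ) (y : μ → Fin (k + 1)) :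
    rp i (sub w (rp i y)) = rp i (sub w y) := by
  funext t
  unfold rp sub
  cases h : w t with
  | inl a => simp
  | inr j =>
    by_cases h : y j = Fin.last k
    · simp [h, (Fin.castSucc_lt_last i).ne]
    · simp [h]

theorem ins_sub {ι μ : Type} {k : ℕ} {i : Fin k} {E : (ι → Fin (k + 1)) → Prop} (hE : Ins i E)
    (w : ι → Fin (k + 1) ⊕ μ) : Ins i (fun y => E (sub w y)) := by
  intro y
  show E (sub w (rp i y)) ↔ E (sub w y)
  rw [← hE (sub w (rp i y)), rp_sub, hE]

theorem ins_pre {ι : Type} {k : ℕ} (i : Fin k) (A : (ι → Fin (k + 1)) → Prop) :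
    Ins i (fun y => A (rp i y)) := by
  intro y
  show A (rp i (rp i y)) ↔ A (rp i y)
  rw [rp_rp]

theorem ins_not {ι : Type} {k : ℕ} {i : Fin k} {E : (ι → Fin (k + 1)) → Prop} (hE : Ins i E) :
    Ins i (fun y => ¬ E y) := fun y => not_congr (hE y)

open Classical in
/-- the point x with the values y at the places T (for injective T) -/
noncomputable def pt {ι α ρ : Type} (x : ι → α) (T : ρ → ι) (y : ρ → α) : ι → α :=
  fun t => if h : ∃ l, T l = t then y (Classical.choose h) else x t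

theorem pt_apply {ι α ρ : Type} (x : ι → α) {T : ρ → ι} (hT : Function.Injective T) (y : ρ → α)
    (l : ρ) : pt x T y (T l) = y l := by
  unfold pt
  have h : ∃ l', T l' = T l := ⟨l, rfl⟩
  rw [dif_pos h]
  exact congrArg y (hT (Classical.choose_spec h))

theorem pt_out {ι α ρ : Type} (x : ι → α) (T : ρ → ι) (y : ρ → α) (t : ι) (h : ¬ ∃ l, T l = t) :
    pt x T y t = x t := by
  unfold pt
  rw [dif_neg h]

/-- probability that the u random places, filled with the constant letter i, give points of A for all i < k -/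
noncomputable def hh {ι : Type} [Fintype ι] [DecidableEq ι] {k : ℕ}
    (A : (ι → Fin (k + 1)) → Prop) (u : ℕ) : ℝ :=
  pr (fun p : (ι → Fin (k + 1)) × (Fin u → ι) =>
    ∀ i : Fin k, A (pt p.1 p.2 (fun _ => i.castSucc)))

end Pool.Agent.Lib.MP_9f2731_nt.GP.Dhj
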