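import Pool.Agent.Lib.MP_9f2731_nt.GP.Dhj.Spec

/-!
MP_9f2731_nt, GP/Dhj, module Bse: alphabets with at most one letter.
-/

namespace Pool.Agent.Lib.MP_9f2731_nt.GP.Dhj

open Finset

private theorem bse_zero : HJ 0 := by
  intro m δ hδ
  refine ⟨1, fun ι _ _ hc A hA => ?_⟩
  exfalso
  have hne : Nonempty ι := Fintype.card_pos_iff.1 hc
  have hemp : IsEmpty (ι → Fin 0) := ⟨fun f => (f hne.some).elim0⟩
  have h0 : pr A = 0 := by
    unfold pr mn
    simp
  linarith

private theorem bse_one : HJ 1 := by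
  intro m δ hδ
  refine ⟨m, fun ι _ _ hc A hA => ?_⟩
  obtain ⟨f⟩ : Nonempty (Fin m ↪ ι) :=
    Function.Embedding.nonempty_of_card_le (by rw [Fintype.card_fin]; exact hc)
  have hx : ∃ x, A x := by
    by_contra h
    push Not at h
    have h0 : pr A = 0 := by
      unfold pr mn
      simp [h]
    linarith
  obtain ⟨x, hx⟩ := hx
  classical
  refine ⟨fun t => if h : ∃ j, f j = t then Sum.inr (Classical.choose h) else Sum.inl 0, ?_, ?_⟩
  · intro j
    refine ⟨f j, ?_⟩
    have h : ∃ j', f j' = f j := ⟨j, rfl⟩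
    show (if h : ∃ j', f j' = f j then Sum.inr (Classical.choose h) else Sum.inl 0) = Sum.inr j
    rw [dif_pos h]
    exact congrArg Sum.inr (f.injective (Classical.choose_spec h))
  · intro y
    have h : ∀ z : ι → Fin 1, A z := fun z => by
      rw [Subsingleton.elim z x]
      exact hx
    exact h _

/-- Module Bse. -/
theorem pBse : BseStmt := ⟨bse_zero, bse_one⟩

end Pool.Agent.Lib.MP_9f2731_nt.GP.Dhj
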