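import Pool.Agent.Lib.MP_9f2731_nt.GP.Dhj.Spec

/-!
MP_9f2731_nt, GP/Dhj/M49: means and probabilities in finite types (helper49). Used by Par, Gsp, Inc.
-/

set_option autoImplicit false

namespace Pool.Agent.Lib.MP_9f2731_nt.GP.Dhj.M49

open Finset

section mn

variable {X Y : Type} [Fintype X] [Fintype Y]

theorem mn_add (f g : X → ℝ) : mn (fun x => f x + g x) = mn f + mn g := by
  unfold mn
  rw [Finset.sum_add_distrib, add_div]

theorem mn_sub (f g : X → ℝ) : mn (fun x => f x - g x) = mn f - mn g := by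
  unfold mn
  rw [Finset.sum_sub_distrib, sub_div]

theorem mn_mul (c : ℝ) (f : X → ℝ) : mn (fun x => c * f x) = c * mn f := by
  unfold mn
  rw [← Finset.mul_sum, mul_div_assoc]

theorem mn_const [Nonempty X] (c : ℝ) : mn (fun _ : X => c) = c := by
  unfold mn
  have h : (Fintype.card X : ℝ) ≠ 0 := Nat.cast_ne_zero.2 Fintype.card_ne_zero
  rw [Finset.sum_const, Finset.card_univ, nsmul_eq_mul]
  field_simp

theorem mn_mono {f g : X → ℝ} (h : ∀ x, f x ≤ g x) : mn f ≤ mn g :=
  div_le_div_of_nonneg_right (Finset.sum_le_sum fun x _ => h x) (Nat.cast_nonneg _)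

theorem mn_nonneg {f : X → ℝ} (h : ∀ x, 0 ≤ f x) : 0 ≤ mn f :=
  div_nonneg (Finset.sum_nonneg fun x _ => h x) (Nat.cast_nonneg _)

theorem mn_le [Nonempty X] {f : X → ℝ} {c : ℝ} (h : ∀ x, f x ≤ c) : mn f ≤ c :=
  (mn_mono h).trans (le_of_eq (mn_const c))

theorem le_mn [Nonempty X] {f : X → ℝ} {c : ℝ} (h : ∀ x, c ≤ f x) : c ≤ mn f :=
  (le_of_eq (mn_const c).symm).trans (mn_mono h)

theorem mn_le_card {f : X → ℝ} {c : ℝ} (hc : 0 ≤ c) (h : ∀ x, f x ≤ c) : mn f ≤ c := by
  rcases isEmpty_or_nonempty X with h0 | h0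
  · unfold mn
    rw [Fintype.card_eq_zero]
    simpa using hc
  · exact mn_le h

theorem mn_equiv (e : X ≃ Y) (f : Y → ℝ) : mn (fun x => f (e x)) = mn f := by
  unfold mn
  rw [Fintype.card_congr e, Equiv.sum_comp e f]

theorem mn_prod (f : X × Y → ℝ) : mn f = mn (fun x => mn (fun y => f (x, y))) := by
  unfold mn
  rw [Fintype.sum_prod_type, Fintype.card_prod, Nat.cast_mul, ← Finset.sum_div, div_div,
    mul_comm (Fintype.card X : ℝ)]

theorem mn_prod' (f : X × Y → ℝ) : mn f = mn (fun y => mn (fun x => f (x, y))) := by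
  rw [← mn_equiv (Equiv.prodComm Y X) f, mn_prod]
  rfl

theorem mn_swap (f : X → Y → ℝ) :
    mn (fun x => mn (fun y => f x y)) = mn (fun y => mn (fun x => f x y)) := by
  rw [← mn_prod (fun p => f p.1 p.2), mn_prod']

theorem mn_sum {W : Type} (s : Finset W) (f : W → X → ℝ) :
    mn (fun x => ∑ i ∈ s, f i x) = ∑ i ∈ s, mn (f i) := by
  unfold mn
  rw [Finset.sum_comm, Finset.sum_div]

theorem exists_ge [Nonempty X] (f : X → ℝ) : ∃ x, mn f ≤ f x := by
  by_contra h
  push Not at h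
  have h1 : ∑ x, f x < ∑ _x : X, mn f :=
    Finset.sum_lt_sum_of_nonempty Finset.univ_nonempty fun x _ => h x
  have h2 : (0 : ℝ) < Fintype.card X := Nat.cast_pos.2 Fintype.card_pos
  rw [Finset.sum_const, Finset.card_univ, nsmul_eq_mul] at h1
  unfold mn at h1
  rw [mul_div_cancel₀ _ h2.ne'] at h1
  exact lt_irrefl _ h1

end mn

/-- classical indicator -/
noncomputable def ci (P : Prop) (a : ℝ) : ℝ := @ite ℝ P (Classical.propDecidable P) a 0

theorem ci_pos {P : Prop} (h : P) (a : ℝ) : ci P a = a := if_pos h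

theorem ci_neg {P : Prop} (h : ¬ P) (a : ℝ) : ci P a = 0 := if_neg h

theorem ite_ci (P : Prop) [Decidable P] (a : ℝ) : (if P then a else 0) = ci P a := by
  by_cases h : P
  · rw [if_pos h, ci_pos h]
  · rw [if_neg h, ci_neg h]

theorem ci_congr {P Q : Prop} (h : P ↔ Q) (a : ℝ) : ci P a = ci Q a := by
  have : P = Q := propext h
  rw [this]

section pr

variable {X Y : Type} [Fintype X] [Fintype Y]

theorem pr_ci (P : X → Prop) : pr P = mn (fun x => ci (P x) 1) := rfl

theorem pr_congr {P Q : X → Prop} (h : ∀ x, P x ↔ Q x) : pr P = pr Q := by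
  have : P = Q := funext fun x => propext (h x)
  rw [this]

theorem pr_nonneg (P : X → Prop) : 0 ≤ pr P := mn_nonneg fun x => by split_ifs <;> norm_num

theorem pr_le_one (P : X → Prop) : pr P ≤ 1 :=
  mn_le_card zero_le_one fun x => by split_ifs <;> norm_num

theorem pr_mono {P Q : X → Prop} (h : ∀ x, P x → Q x) : pr P ≤ pr Q := by
  refine mn_mono fun x => ?_
  by_cases hP : P x
  · rw [if_pos hP, if_pos (h x hP)]
  · rw [if_neg hP]
    split_ifs <;> norm_num

theorem pr_equiv (e : X ≃ Y) (P : Y → Prop) : pr (fun x => P (e x)) = pr P := by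
  classical
  exact mn_equiv e (fun y => if P y then (1 : ℝ) else 0)

theorem pr_prod (P : X × Y → Prop) : pr P = mn (fun x => pr (fun y => P (x, y))) :=
  mn_prod _

theorem pr_prod' (P : X × Y → Prop) : pr P = mn (fun y => pr (fun x => P (x, y))) :=
  mn_prod' _

theorem pr_not [Nonempty X] (P : X → Prop) : pr (fun x => ¬ P x) = 1 - pr P := by
  have h0 : pr (fun x => ¬ P x) + pr P = 1 := by
    unfold pr
    rw [← mn_add]
    refine Eq.trans ?_ (mn_const (X := X) 1)
    congr 1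
    funext x
    by_cases h : P x
    · simp [h]
    · simp [h]
  linarith

theorem pr_true [Nonempty X] : pr (fun _ : X => True) = 1 := by
  unfold pr
  simp only [if_true]
  exact mn_const 1

theorem pr_or_le (P Q : X → Prop) : pr (fun x => P x ∨ Q x) ≤ pr P + pr Q := by
  unfold pr
  rw [← mn_add]
  refine mn_mono fun x => ?_
  by_cases h : P x <;> by_cases h' : Q x <;> simp [h, h']

theorem pr_exists_le {W : Type} [Fintype W] (R : W → X → Prop) :
    pr (fun x => ∃ w, R w x) ≤ ∑ w, pr (R w) := by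
  classical
  unfold pr
  rw [← mn_sum]
  refine mn_mono fun x => ?_
  by_cases h : ∃ w, R w x
  · rw [if_pos h]
    obtain ⟨w, hw⟩ := h
    refine le_trans ?_ (Finset.single_le_sum (f := fun w => if R w x then (1 : ℝ) else 0)
      (fun w _ => by split_ifs <;> norm_num) (Finset.mem_univ w))
    rw [if_pos hw]
  · rw [if_neg h]
    exact Finset.sum_nonneg fun w _ => by split_ifs <;> norm_num

theorem pigeon {W : Type} [Fintype W] {d K : ℝ} (hd : 0 < d) {P : X → Prop} (hP : d ≤ pr P)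
    (R : W → X → Prop) (h : ∀ x, P x → ∃ w, R w x) (hK : (Fintype.card W : ℝ) ≤ K) :
    ∃ w, d / K ≤ pr (R w) := by
  by_contra hc
  push Not at hc
  have h1 : d ≤ ∑ w, pr (R w) := hP.trans ((pr_mono h).trans (pr_exists_le R))
  rcases isEmpty_or_nonempty W with h0 | h0
  · rw [Finset.univ_eq_empty, Finset.sum_empty] at h1
    linarith
  · have h2 : ∑ w, pr (R w) < ∑ _w : W, d / K :=
      Finset.sum_lt_sum_of_nonempty Finset.univ_nonempty fun w _ => hc w
    rw [Finset.sum_const, Finset.card_univ, nsmul_eq_mul] at h2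
    have h3 : (0 : ℝ) < Fintype.card W := Nat.cast_pos.2 Fintype.card_pos
    have hK0 : 0 < K := h3.trans_le hK
    have h4 : (Fintype.card W : ℝ) * (d / K) ≤ K * (d / K) :=
      mul_le_mul_of_nonneg_right hK (by positivity)
    rw [mul_div_cancel₀ _ hK0.ne'] at h4
    linarith

theorem markov [Nonempty X] {f : X → ℝ} {c : ℝ} (hc : 0 ≤ c) (h1 : ∀ x, f x ≤ 1) :
    mn f ≤ pr (fun x => c ≤ f x) + c := by
  have h2 : mn f ≤ mn (fun x => (if c ≤ f x then (1 : ℝ) else 0) + c) := by
    refine mn_mono fun x => ?_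
    by_cases h : c ≤ f x
    · rw [if_pos h]
      have := h1 x
      linarith
    · rw [if_neg h]
      push Not at h
      linarith
  rw [mn_add, mn_const] at h2
  refine h2.trans (le_of_eq ?_)
  unfold pr
  congr 2

theorem pr_exists {P : X → Prop} (h : 0 < pr P) : ∃ x, P x := by
  by_contra hc
  push Not at hc
  have : pr P = 0 := by
    unfold pr mn
    simp [hc]
  linarith

end pr

/-! ### splitting the coordinates -/

section split

variable {ι A B α : Type}

/-- join -/
def jn (e : ι ≃ A ⊕ B) (y : A → α) (z : B → α) : ι → α := fun t => Sum.elim y z (e t)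

/-- the splitting as an equivalence -/
def spl (α : Type) (e : ι ≃ A ⊕ B) : (A → α) × (B → α) ≃ (ι → α) where
  toFun p := jn e p.1 p.2
  invFun x := (fun a => x (e.symm (Sum.inl a)), fun b => x (e.symm (Sum.inr b)))
  left_inv p := by
    ext t <;> simp [jn]
  right_inv x := by
    funext t
    show Sum.elim (fun a => x (e.symm (Sum.inl a))) (fun b => x (e.symm (Sum.inr b))) (e t) = x t
    rcases h : e t with a | b
    · show x (e.symm (Sum.inl a)) = x t
      rw [← h, e.symm_apply_apply]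
    · show x (e.symm (Sum.inr b)) = x t
      rw [← h, e.symm_apply_apply]

theorem spl_apply (e : ι ≃ A ⊕ B) (p : (A → α) × (B → α)) : spl α e p = jn e p.1 p.2 := rfl

theorem rp_jn {k : ℕ} (i : Fin k) (e : ι ≃ A ⊕ B) (y : A → Fin (k + 1)) (z : B → Fin (k + 1)) :
    rp i (jn e y z) = jn e (rp i y) (rp i z) := by
  funext t
  unfold rp jn
  cases e t <;> rfl

theorem ins_left {k : ℕ} {i : Fin k} (e : ι ≃ A ⊕ B) {E : (ι → Fin (k + 1)) → Prop}
    (hE : Ins i E) (z : B → Fin (k + 1)) : Ins i (fun y => E (jn e y z)) := by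
  intro y
  show E (jn e (rp i y) z) ↔ E (jn e y z)
  rw [← hE (jn e (rp i y) z), ← hE (jn e y z), rp_jn, rp_jn, rp_rp]

theorem ins_right {k : ℕ} {i : Fin k} (e : ι ≃ A ⊕ B) {E : (ι → Fin (k + 1)) → Prop}
    (hE : Ins i E) (y : A → Fin (k + 1)) : Ins i (fun z => E (jn e y z)) := by
  intro z
  show E (jn e y (rp i z)) ↔ E (jn e y z)
  rw [← hE (jn e y (rp i z)), ← hE (jn e y z), rp_jn, rp_jn, rp_rp]

/-- word with fixed letters on the right part -/
def wl {μ : Type} (e : ι ≃ A ⊕ B) (w : A → α ⊕ μ) (z : B → α) : ι → α ⊕ μ :=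
  fun t => Sum.elim w (fun b => Sum.inl (z b)) (e t)

theorem sub_wl {μ : Type} (e : ι ≃ A ⊕ B) (w : A → α ⊕ μ) (z : B → α) (v : μ → α) :
    sub (wl e w z) v = jn e (sub w v) z := by
  funext t
  unfold sub wl jn
  cases e t <;> rfl

theorem ful_wl {μ : Type} (e : ι ≃ A ⊕ B) {w : A → α ⊕ μ} (hw : Ful w) (z : B → α) :
    Ful (wl e w z) := by
  intro j
  obtain ⟨t, ht⟩ := hw j
  exact ⟨e.symm (Sum.inl t), by simp [wl, ht]⟩

/-- word with fixed letters on the left part -/
def wr {μ : Type} (e : ι ≃ A ⊕ B) (y : A → α) (w : B → α ⊕ μ) : ι → α ⊕ μ :=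
  fun t => Sum.elim (fun a => Sum.inl (y a)) w (e t)

theorem sub_wr {μ : Type} (e : ι ≃ A ⊕ B) (y : A → α) (w : B → α ⊕ μ) (v : μ → α) :
    sub (wr e y w) v = jn e y (sub w v) := by
  funext t
  unfold sub wr jn
  cases e t <;> rfl

theorem ful_wr {μ : Type} (e : ι ≃ A ⊕ B) (y : A → α) {w : B → α ⊕ μ} (hw : Ful w) :
    Ful (wr e y w) := by
  intro j
  obtain ⟨t, ht⟩ := hw j
  exact ⟨e.symm (Sum.inr t), by simp [wr, ht]⟩

theorem sub_inj {μ : Type} {w : ι → α ⊕ μ} (hw : Ful w) : Function.Injective (sub w) := by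
  intro v v' h
  funext j
  obtain ⟨t, ht⟩ := hw j
  have h1 := congrFun h t
  simpa [sub, ht] using h1

/-- splitting off `Fin M` -/
theorem exists_split (ι : Type) [Fintype ι] (M : ℕ) (h : M ≤ Fintype.card ι) :
    Nonempty (ι ≃ Fin M ⊕ Fin (Fintype.card ι - M)) := by
  refine ⟨Fintype.equivOfCardEq ?_⟩
  rw [Fintype.card_sum, Fintype.card_fin, Fintype.card_fin]
  omega

end split

end Pool.Agent.Lib.MP_9f2731_nt.GP.Dhj.M49
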