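import Pool.Agent.Lib.MP_9f2731_nt.GP.Dhj.Spec

/-!
MP_9f2731_nt, GP/Dhj, module Pt (helper9): many random places filled with fixed letters.
-/

namespace Pool.Agent.Lib.MP_9f2731_nt.GP.Dhj

open Finset

private theorem pt_avg {ρ α : Type} [Fintype ρ] [DecidableEq ρ] [Fintype α] (r : ρ)
    (g : (ρ → α) → ℝ) :
    ∑ T : ρ → α, ∑ b : α, g (Function.update T r b) = (Fintype.card α : ℝ) * ∑ T, g T := by
  have hσ : Function.Involutive (fun p : (ρ → α) × α => (Function.update p.1 r p.2, p.1 r)) := by
    intro p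
    ext1
    · simp
    · simp
  have h := Equiv.sum_comp (hσ.toPerm _) (fun p : (ρ → α) × α => g p.1)
  simp only [Function.Involutive.coe_toPerm, Fintype.sum_prod_type] at h
  rw [h]
  simp [Finset.mul_sum]

private theorem pt_mn_prod {X Y : Type} [Fintype X] [Fintype Y] (F : X → Y → ℝ) :
    mn (fun p : X × Y => F p.1 p.2) = mn (fun y => mn (fun x => F x y)) := by
  unfold mn
  rw [Fintype.sum_prod_type, Finset.sum_comm, Fintype.card_prod]
  push_cast
  rw [← Finset.sum_div, div_div]

private theorem pt_mn_le {Y : Type} [Fintype Y] [Nonempty Y] (f g : Y → ℝ) (c : ℝ)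
    (h : ∀ y, |f y - g y| ≤ c) : |mn f - mn g| ≤ c := by
  have hc : (0 : ℝ) < (Fintype.card Y : ℝ) := by exact_mod_cast Fintype.card_pos
  unfold mn
  rw [← sub_div, ← Finset.sum_sub_distrib, abs_div, abs_of_pos hc, div_le_iff₀ hc]
  calc |∑ y, (f y - g y)| ≤ ∑ y, |f y - g y| := Finset.abs_sum_le_sum_abs _ _
    _ ≤ ∑ _y : Y, c := Finset.sum_le_sum fun y _ => h y
    _ = c * Fintype.card Y := by simp [mul_comm]

private theorem pt_mn_const {Y : Type} [Fintype Y] [Nonempty Y] (c : ℝ) :
    mn (fun _ : Y => c) = c := by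
  have hc : (Fintype.card Y : ℝ) ≠ 0 := by exact_mod_cast Fintype.card_ne_zero
  unfold mn
  simp only [Finset.sum_const, Finset.card_univ, nsmul_eq_mul]
  field_simp

private theorem pt_mn_div {Y Z : Type} [Fintype Y] [Fintype Z] {N : ℝ} (hN : N ≠ 0)
    (G : Y → ℝ) (K : Y → Z → ℝ) (h : ∑ T, ∑ t, K T t = N * ∑ T, G T) :
    mn G = mn (fun T => (∑ t, K T t) / N) := by
  unfold mn
  rw [← Finset.sum_div, h]
  congr 1
  field_simp

private def ptU {k : ℕ} {ι ρ : Type} [DecidableEq ι] (y : ρ → Fin (k + 1)) (T : ρ → ι) :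
    List ρ → (ι → Fin (k + 1)) → (ι → Fin (k + 1))
  | [], x => x
  | (r :: l), x => ptU y T l (Function.update x (T r) (y r))

private theorem ptU_congr {k : ℕ} {ι ρ : Type} [DecidableEq ι] (y : ρ → Fin (k + 1))
    (T T' : ρ → ι) : ∀ (l : List ρ) (x : ι → Fin (k + 1)), (∀ r ∈ l, T r = T' r) →
    ptU y T l x = ptU y T' l x := by
  intro l
  induction l with
  | nil => intro x _; rfl
  | cons r l ih =>
    intro x h
    show ptU y T l (Function.update x (T r) (y r)) = ptU y T' l (Function.update x (T' r) (y r))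
    rw [h r (List.mem_cons_self), ih _ fun s hs => h s (List.mem_cons_of_mem _ hs)]

private theorem ptU_out {k : ℕ} {ι ρ : Type} [DecidableEq ι] (y : ρ → Fin (k + 1))
    (T : ρ → ι) (t : ι) : ∀ (l : List ρ) (x : ι → Fin (k + 1)), (∀ r ∈ l, T r ≠ t) →
    ptU y T l x t = x t := by
  intro l
  induction l with
  | nil => intro x _; rfl
  | cons r l ih =>
    intro x h
    show ptU y T l (Function.update x (T r) (y r)) t = x t
    rw [ih _ fun s hs => h s (List.mem_cons_of_mem _ hs),
      Function.update_of_ne (Ne.symm (h r List.mem_cons_self))]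

private theorem ptU_in {k : ℕ} {ι ρ : Type} [DecidableEq ι] (y : ρ → Fin (k + 1))
    {T : ρ → ι} (hT : Function.Injective T) (s : ρ) :
    ∀ (l : List ρ) (x : ι → Fin (k + 1)), s ∈ l → ptU y T l x (T s) = y s := by
  intro l
  induction l with
  | nil => intro x h; exact absurd h List.not_mem_nil
  | cons r l ih =>
    intro x h
    show ptU y T l (Function.update x (T r) (y r)) (T s) = y s
    by_cases hs : s ∈ l
    · exact ih _ hs
    · have hsr : s = r := by
        rcases List.mem_cons.1 h with h | h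
        · exact h
        · exact absurd h hs
      subst hsr
      rw [ptU_out y T (T s) l _ fun r hr hrs => hs (hT hrs ▸ hr), Function.update_self]

private theorem ptU_pt {k : ℕ} {ι ρ : Type} [DecidableEq ι] [Fintype ρ] (y : ρ → Fin (k + 1))
    {T : ρ → ι} (hT : Function.Injective T) (x : ι → Fin (k + 1)) :
    ptU y T (Finset.univ : Finset ρ).toList x = pt x T y := by
  funext t
  by_cases h : ∃ l, T l = t
  · obtain ⟨l, rfl⟩ := h
    rw [pt_apply x hT, ptU_in y hT l _ _ (by simp)]
  · rw [pt_out x T y t h, ptU_out y T t _ _ fun r _ hr => h ⟨r, hr⟩]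

theorem pPt (h1 : OneStmt) (h2 : NinStmt) : PtStmt := by
  intro k ι ρ _ _ _ _ _ y f hf
  set N : ℝ := (Fintype.card ι : ℝ) with hNd
  have hN : 0 < N := by
    rw [hNd]; exact_mod_cast Fintype.card_pos
  have key : ∀ l : List ρ, l.Nodup →
      |mn (fun p : (ι → Fin (k + 1)) × (ρ → ι) => f (ptU y p.2 l p.1)) - mn f|
        ≤ (l.length : ℝ) * Real.sqrt ((k : ℝ) / N) := by
    intro l
    induction l with
    | nil =>
      intro _
      have e : mn (fun p : (ι → Fin (k + 1)) × (ρ → ι) => f (ptU y p.2 [] p.1)) = mn f := by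
        rw [pt_mn_prod (fun (x : ι → Fin (k + 1)) (T : ρ → ι) => f (ptU y T [] x))]
        exact pt_mn_const (Y := ρ → ι) (mn f)
      rw [e]
      simp
    | cons r l ih =>
      intro hl
      have hr : r ∉ l := (List.nodup_cons.1 hl).1
      have ih' := ih (List.nodup_cons.1 hl).2
      have e1 : mn (fun p : (ι → Fin (k + 1)) × (ρ → ι) => f (ptU y p.2 (r :: l) p.1))
          = mn (fun T : ρ → ι => mn (fun p : (ι → Fin (k + 1)) × ι =>
              f (ptU y T l (Function.update p.1 p.2 (y r))))) := by
        rw [pt_mn_prod (fun (x : ι → Fin (k + 1)) (T : ρ → ι) => f (ptU y T (r :: l) x))]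
        have e2 : ∀ (T : ρ → ι) (t : ι),
            mn (fun x : ι → Fin (k + 1) => f (ptU y (Function.update T r t) (r :: l) x))
            = mn (fun x : ι → Fin (k + 1) => f (ptU y T l (Function.update x t (y r)))) := by
          intro T t
          congr 1
          funext x
          show f (ptU y (Function.update T r t) l
            (Function.update x (Function.update T r t r) (y r))) = _
          rw [Function.update_self, ptU_congr y (Function.update T r t) T l _ fun s hs =>
            Function.update_of_ne (fun h : s = r => hr (by rw [← h]; exact hs)) _ _]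
        have e3 := pt_avg r (fun T : ρ → ι =>
          mn (fun x : ι → Fin (k + 1) => f (ptU y T (r :: l) x)))
        simp only [e2] at e3
        rw [← hNd] at e3
        have e4 : ∀ T : ρ → ι, mn (fun p : (ι → Fin (k + 1)) × ι =>
              f (ptU y T l (Function.update p.1 p.2 (y r))))
            = (∑ t : ι, mn (fun x : ι → Fin (k + 1) =>
                f (ptU y T l (Function.update x t (y r))))) / N := by
          intro T
          rw [pt_mn_prod (fun (x : ι → Fin (k + 1)) (t : ι) =>
            f (ptU y T l (Function.update x t (y r))))]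
          rfl
        simp only [e4]
        exact pt_mn_div hN.ne' _ _ e3
      have e5 : |mn (fun p : (ι → Fin (k + 1)) × (ρ → ι) => f (ptU y p.2 (r :: l) p.1))
          - mn (fun p : (ι → Fin (k + 1)) × (ρ → ι) => f (ptU y p.2 l p.1))|
          ≤ Real.sqrt ((k : ℝ) / N) := by
        rw [e1, pt_mn_prod (fun (x : ι → Fin (k + 1)) (T : ρ → ι) => f (ptU y T l x))]
        exact pt_mn_le _ _ _ fun T => h1 k ι (y r) (fun x => f (ptU y T l x)) fun x => hf _
      have e6 := abs_sub_le
        (mn (fun p : (ι → Fin (k + 1)) × (ρ → ι) => f (ptU y p.2 (r :: l) p.1)))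
        (mn (fun p : (ι → Fin (k + 1)) × (ρ → ι) => f (ptU y p.2 l p.1))) (mn f)
      rw [List.length_cons]
      push_cast
      linarith
  have k1 := key (Finset.univ : Finset ρ).toList (Finset.nodup_toList _)
  rw [Finset.length_toList, Finset.card_univ] at k1
  have k2 : |mn (fun p : (ι → Fin (k + 1)) × (ρ → ι) => f (pt p.1 p.2 y))
      - mn (fun p : (ι → Fin (k + 1)) × (ρ → ι) =>
          f (ptU y p.2 (Finset.univ : Finset ρ).toList p.1))|
      ≤ (Fintype.card ρ : ℝ) ^ 2 / N := by
    refine le_trans ?_ (h2 ι ρ)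
    classical
    have hc : (0 : ℝ) < (Fintype.card ((ι → Fin (k + 1)) × (ρ → ι)) : ℝ) := by
      exact_mod_cast Fintype.card_pos
    have e7 : pr (fun T : ρ → ι => ¬ Function.Injective T)
        = mn (fun p : (ι → Fin (k + 1)) × (ρ → ι) =>
            if ¬ Function.Injective p.2 then (1 : ℝ) else 0) := by
      rw [pt_mn_prod (fun (_ : ι → Fin (k + 1)) (T : ρ → ι) =>
        if ¬ Function.Injective T then (1 : ℝ) else 0)]
      unfold pr
      congr 1
      funext T
      rw [pt_mn_const]
      congr
    rw [e7]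
    unfold mn
    rw [← sub_div, ← Finset.sum_sub_distrib, abs_div, abs_of_pos hc]
    refine div_le_div_of_nonneg_right ?_ hc.le
    refine le_trans (Finset.abs_sum_le_sum_abs _ _) (Finset.sum_le_sum fun p _ => ?_)
    by_cases hT : Function.Injective p.2
    · rw [ptU_pt y hT]
      simp [hT]
    · rw [if_pos hT, abs_le]
      have a1 := hf (pt p.1 p.2 y)
      have a2 := hf (ptU y p.2 (Finset.univ : Finset ρ).toList p.1)
      constructor <;> linarith [a1.1, a1.2, a2.1, a2.2]
  have k3 := abs_sub_le
    (mn (fun p : (ι → Fin (k + 1)) × (ρ → ι) => f (pt p.1 p.2 y)))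
    (mn (fun p : (ι → Fin (k + 1)) × (ρ → ι) =>
          f (ptU y p.2 (Finset.univ : Finset ρ).toList p.1))) (mn f)
  linarith

end Pool.Agent.Lib.MP_9f2731_nt.GP.Dhj
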