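import Pool.Agent.Lib.MP_9f2731_nt.GP.Dhj.Base

/-!
MP_9f2731_nt, GP/Dhj (helper78): the density Hales-Jewett theorem (DhjStmt of GP/Defs), by induction on the alphabet with the
uniform measure. Rules: a module `X.lean` in this directory starts with
`import Pool.Agent.Lib.MP_9f2731_nt.GP.Dhj.Spec`, `namespace Pool.Agent.Lib.MP_9f2731_nt.GP.Dhj`, `open Finset`
and proves the theorem `pX`. Statements under Uses are hypotheses, in this order. All modules are independent.
Proved basic lemmas (words, composition, rp, Ins, pt) are in Base.lean.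
-/

namespace Pool.Agent.Lib.MP_9f2731_nt.GP.Dhj

open Finset

/-- Module Bse. Uses: nothing. Proof. k = 0: n = 1: the type ι → Fin 0 is empty, pr A = 0 (0/0), so δ ≤ pr A is impossible. k = 1: n = m + 1: there is exactly one function to Fin 1, pr A ≥ δ > 0 shows that A holds for it; w: choose m different places
(card ι ≥ m) for the m wildcards, letter 0 elsewhere. -/
def BseStmt : Prop := HJ 0 ∧ HJ 1

/-- Module Mul (dimension one gives all dimensions). Uses: nothing. Proof. Induction on m (for all δ). m = 0: a word without wildcards is a point, A is nonempty (n = 1 if k ≥ 1; if k = 0 pr A = 0 for card ι ≥ 1). m + 1: a from the induction hypothesis for δ/2, K = (k+m)^a,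
b from dimension one for δ/(2K), n = a + b. ι ≃ Fin a ⊕ κ with card κ ≥ b (Fintype.equivFin, finSumFinEquiv; transport of A and pr by an equivalence). For x : κ → Fin k let A_x = {y : Fin a → Fin k | A (y,x)}: mean over x of pr A_x = pr A ≥ δ, so
pr {x : pr A_x ≥ δ/2} ≥ δ/2. Each such x has a word w_x : Fin a → Fin k ⊕ Fin m (there are K words): by pigeonhole one word w0 works for a set X of x with pr X ≥ δ/(2K). Dimension one for κ, X gives v : κ → Fin k ⊕ Fin 1. The word on ι: w0 on Fin a (wildcards castSucc),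
v on κ with its wildcard renamed Fin.last m: full, and all its points are in A. -/
def MulStmt : Prop := ∀ k : ℕ, (∀ δ : ℝ, 0 < δ → ∃ n : ℕ, MH k 1 δ n) → HJ k

/-- Module Dim. Uses: nothing. Proof. ι ≃ Fin m ⊕ κ; pr A = mean over z : κ → Fin k of pr_y A(y,z), so for some z the density is ≥ pr A; w = wildcard j at the place j of Fin m, letter z elsewhere. (k = 0 with card ι ≥ 1: pr A = 0 and the empty type is excluded by k ≥ 1.) -/
def DimStmt : Prop :=
  ∀ (k m : ℕ) (ι : Type) [Fintype ι] [DecidableEq ι], 1 ≤ k → m ≤ Fintype.card ι →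
    ∀ a : (ι → Fin k) → ℝ, ∃ w : ι → Fin k ⊕ Fin m, Ful w ∧ mn a ≤ mn (fun y => a (sub w y))

/-! ### Insensitive sets -/

/-- Module Fib. Uses: nothing. Proof. n1 from MH k m (η/2). For S ⊆ ι let P(S) be the probability that {t : x t ≠ last} = S. pr E = pr (E ∘ rp i) (Ins) = ∑_S P(S) pr_{y : S → Fin k} E(y_S), y_S = castSucc (y t) on S, i.castSucc outside S. The x with fewer than n1 letters ≠ last number at most
n1 (N k)^n1 (N = card ι ≥ 1), and n1 (N k)^n1 ≤ (η/2) 2^N ≤ (η/2)(k+1)^N for N ≥ n large. So some S with card S ≥ n1 has pr_y E(y_S) ≥ η/2. MH k m (η/2) n1 for the index type S (subtype) gives v : S → Fin k ⊕ Fin m; w t = v t (letters castSucc) on S, w t = letter i.castSucc outside. w is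
full. For y : Fin m → Fin (k+1): rp i y has letters in Fin k, so E (sub w (rp i y)) holds; sub w has no fixed letter last, so rp i (sub w y) = sub w (rp i y) and E (sub w y) by Ins. (k ≥ 1 since i : Fin k.) -/
def FibStmt : Prop :=
  ∀ k : ℕ, HJ k → ∀ (m : ℕ) (η : ℝ), 0 < η → ∃ n : ℕ, ∀ (ι : Type) [Fintype ι] [DecidableEq ι],
    n ≤ Fintype.card ι → ∀ (i : Fin k) (E : (ι → Fin (k + 1)) → Prop), Ins i E → η ≤ pr E →
    ∃ w : ι → Fin (k + 1) ⊕ Fin m, Ful w ∧ ∀ y : Fin m → Fin (k + 1), E (sub w y)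

open Classical in
/-- Module Par. Uses: Fib. Proof. M from Fib for (m, η/4) (M ≥ 1), K = (k+1+m)^M (number of words on Fin M), c = (η/4)/(K (k+1)^M) in (0,1). CLAIM(R): if card ι ≥ R M and b ≤ 1, δ' ≥ 0 and mn (b ∘ sub w) ≤ δ' for all full w : ι → Fin (k+1) ⊕ Fin m inside E (E Ins i), then
mn (b 1_E) ≤ δ' pr E + η/2 + (1-c)^R pr E. The statement follows with (1-c)^R ≤ η/2, n = R M. R = 0: mn (b 1_E) ≤ pr E. R + 1: if pr E < η/2: mn (b 1_E) ≤ pr E ≤ η/2. Let pr E ≥ η/2, ι ≃ Fin M ⊕ κ, card κ ≥ R M. D = {z : κ → _ | pr_y E(y,z) ≥ η/4} has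
pr D ≥ η/4; for z ∈ D the set {y | E (y,z)} is Ins i and contains a full word by Fib; pigeonhole: a word w0 on Fin M with Z0 = {z | for all v, E (sub w0 v, z)}, pr Z0 ≥ (η/4)/K. U0 = range of sub w0. For z ∈ Z0 the word (w0, letters z) is full and inside E, so
∑_{u ∈ U0} b(u,z) ≤ δ' card U0 (sub w0 is injective as w0 is full): mn (b 1_{U0 x Z0}) ≤ δ' pr (U0 x Z0). E' = E minus U0 x Z0: for y ∈ U0 the fibre over y is E^y minus Z0, otherwise E^y; Z0 is the intersection of the E^u, u ∈ U0, so all fibres are Ins i; a full word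
inside a fibre over y gives, with the letters y, a full word inside E. CLAIM(R) for all fibres, averaged over y: mn (b 1_{E'}) ≤ δ' pr E' + η/2 + (1-c)^R pr E', and pr E' = pr E - pr (U0 x Z0) ≤ pr E - c ≤ (1-c) pr E (pr(U0 x Z0) ≥ (k+1)^(-M) pr Z0). Add. -/
def ParStmt : Prop :=
  ∀ k : ℕ, HJ k → ∀ (m : ℕ) (η : ℝ), 0 < η → ∃ n : ℕ, ∀ (ι : Type) [Fintype ι] [DecidableEq ι],
    n ≤ Fintype.card ι → ∀ (i : Fin k) (E : (ι → Fin (k + 1)) → Prop), Ins i E →
    ∀ (b : (ι → Fin (k + 1)) → ℝ) (δ' : ℝ), (∀ x, b x ≤ 1) → 0 ≤ δ' →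
    (∀ w : ι → Fin (k + 1) ⊕ Fin m, Ful w → (∀ y, E (sub w y)) → mn (fun y => b (sub w y)) ≤ δ') →
    mn (fun x => if E x then b x else 0) ≤ δ' * pr E + η

open Classical in
/-- Module Str (intersections of insensitive sets). Uses: Dim, Par. Proof. Induction on I (Finset.induction_on). I = ∅: n = m + 1; the condition is about all full words, Dim for a gives a w with mn a ≤ mn (a ∘ sub w) ≤ δ'. insert i I: n1 from I for (m, η/2) (n1 ≥ 1), n from Par for (n1, η/4)
... with 0 ≤ a ≤ 1. Put F x = ∀ l ∈ I, E l x, b = (a - δ') 1_F ≤ 1. For every full w : ι → _ ⊕ Fin n1 inside E i the induction hypothesis for the index type Fin n1, a ∘ sub w, the sets E l ∘ sub w (Ins by ins_sub) applies (a full v inside all E l ∘ sub w gives cmp w v inside all E l, l ∈ insert i I):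
mn (b ∘ sub w) = mn (a 1_F ∘ sub w) - δ' pr (F ∘ sub w) ≤ η/2. Par with δ' replaced by η/2: mn (b 1_{E i}) ≤ (η/2) pr (E i) + η/4 ≤ η, and mn (b 1_{E i}) = mn (a 1_{all}) - δ' pr (all). -/
def StrStmt : Prop :=
  ∀ k : ℕ, HJ k → ∀ (I : Finset (Fin k)) (m : ℕ) (η : ℝ), 0 < η → ∃ n : ℕ,
    ∀ (ι : Type) [Fintype ι] [DecidableEq ι], n ≤ Fintype.card ι →
    ∀ E : Fin k → (ι → Fin (k + 1)) → Prop, (∀ i ∈ I, Ins i (E i)) →
    ∀ (a : (ι → Fin (k + 1)) → ℝ) (δ' : ℝ), (∀ x, 0 ≤ a x ∧ a x ≤ 1) → 0 ≤ δ' →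
    (∀ w : ι → Fin (k + 1) ⊕ Fin m, Ful w → (∀ y, ∀ i ∈ I, E i (sub w y)) →
      mn (fun y => a (sub w y)) ≤ δ') →
    mn (fun x => if ∀ i ∈ I, E i x then a x else 0) ≤ δ' * pr (fun x => ∀ i ∈ I, E i x) + η

/-! ### Random places -/

/-- Module One. Uses: nothing. Proof. N = card ι. For x' the number of pairs (x,t) with update x t a = x' is (k+1) c(x'), c(x') = number of t with x' t = a. So the mean on the left is mn (f (k+1) c/N), the difference is ≤ mn |(k+1)c/N - 1| ≤ (mn ((k+1) c/N - 1)^2)^(1/2), and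
the second moment is k/N: mn c = N/(k+1), mn c^2 = ∑_{s,t} pr(x s = a and x t = a) = N/(k+1) + N(N-1)/(k+1)^2. -/
def OneStmt : Prop :=
  ∀ (k : ℕ) (ι : Type) [Fintype ι] [DecidableEq ι] [Nonempty ι] (a : Fin (k + 1))
    (f : (ι → Fin (k + 1)) → ℝ), (∀ x, 0 ≤ f x ∧ f x ≤ 1) →
    |mn (fun p : (ι → Fin (k + 1)) × ι => f (Function.update p.1 p.2 a)) - mn f| ≤
      Real.sqrt ((k : ℝ) / Fintype.card ι)

/-- Module Nin. Uses: nothing. Proof. Union bound over the pairs l ≠ l' of ρ: pr (T l = T l') = 1/card ι. -/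
def NinStmt : Prop :=
  ∀ (ι ρ : Type) [Fintype ι] [DecidableEq ι] [Nonempty ι] [Fintype ρ] [DecidableEq ρ],
    pr (fun T : ρ → ι => ¬ Function.Injective T) ≤ (Fintype.card ρ : ℝ) ^ 2 / Fintype.card ι

/-- Module Pt (many places). Uses: One, Nin. Proof. Reindex ρ ≃ Fin n, n = card ρ. Iterated update: U 0 x T y = x, U (n+1) x T y = U n (update x (T 0) (y 0)) (T ∘ succ) (y ∘ succ) (T : Fin n → ι arbitrary). Induction on n: |mn_(x,T) f(U n x T y) - mn f| ≤ n √(k/N): for fixed T ∘ succ, One for the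
function x ↦ f(U n x (T ∘ succ) (y ∘ succ)) replaces update x (T 0) (y 0) by x. For injective T: U n x T y = pt x T y (pt_apply, pt_out). So mn f(pt) and mn f(U) differ by at most pr (T not injective) ≤ n^2/N (Nin). -/
def PtStmt : Prop :=
  ∀ (k : ℕ) (ι ρ : Type) [Fintype ι] [DecidableEq ι] [Nonempty ι] [Fintype ρ] [DecidableEq ρ]
    (y : ρ → Fin (k + 1)) (f : (ι → Fin (k + 1)) → ℝ), (∀ x, 0 ≤ f x ∧ f x ≤ 1) →
    |mn (fun p : (ι → Fin (k + 1)) × (ρ → ι) => f (pt p.1 p.2 y)) - mn f| ≤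
      Fintype.card ρ * Real.sqrt ((k : ℝ) / Fintype.card ι) +
        (Fintype.card ρ : ℝ) ^ 2 / Fintype.card ι

/-- Module Cmp (comparison with hh). Uses: Nin, Pt. Proof. ρ = J ⊕ J^c, T = (T1, T2). For injective T: pt x T y^i = pt (pt x T2 y0) T1 (const i) where y^i is the function in the statement. So up to pr(T not injective) ≤ (card ρ)^2/N (Nin) the left probability is the mean over T1 and (x,T2) of
g_{T1}(pt x T2 y0), g_{T1}(x) = 1 if A (pt x T1 (const i)) for all i, else 0; by Pt for every T1 this is, up to card ρ √(k/N) + (card ρ)^2/N, the mean over (x,T1) of g_{T1}(x), which is hh A (card J) (reindex J ≃ Fin (card J); for constant y the value pt x T (const c) t is c if t is in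
the range of T and x t otherwise, so it is invariant under reindexing). -/
def CmpStmt : Prop :=
  ∀ (k : ℕ) (ι ρ : Type) [Fintype ι] [DecidableEq ι] [Nonempty ι] [Fintype ρ] [DecidableEq ρ]
    (J : Finset ρ) (y0 : ρ → Fin (k + 1)) (A : (ι → Fin (k + 1)) → Prop),
    |pr (fun p : (ι → Fin (k + 1)) × (ρ → ι) =>
        ∀ i : Fin k, A (pt p.1 p.2 (fun l => if l ∈ J then i.castSucc else y0 l))) -
      hh A J.card| ≤
      Fintype.card ρ * Real.sqrt ((k : ℝ) / Fintype.card ι) +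
        3 * (Fintype.card ρ : ℝ) ^ 2 / Fintype.card ι

/-- Module Fnd (good sizes meet all finite sums sets). Uses: Pt, Cmp. Proof. m from HJ k for (1, δ0/2), m ≥ 1 (MH.mono), θ = δ0/(8 (k+1)^m). ρ = Σ j : Fin m, Fin (u j) (card = ∑ u j ≤ F). For y : Fin m → Fin k let y_ρ l = (y l.1).castSucc. By Pt pr A(pt x T y_ρ) ≥ δ0 - δ0/4 for all y
(N large in terms of F, k, δ0), so the mean over (x,T) of pr_y A(pt x T y_ρ) is ≥ (3/4) δ0 and with probability ≥ δ0/4 it is ≥ δ0/2. For such (x,T), MH k 1 (δ0/2) m for the index type Fin m gives a full word v : Fin m → Fin k ⊕ Fin 1 with A(pt x T ((sub v i) ∘ fst, castSucc)) for all i : Fin k. There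
are (k+1)^m words, so one v has probability ≥ δ0/(4 (k+1)^m). J = the wildcard places of v (nonempty), J' = {l : l.1 ∈ J}, card J' = ∑_{j∈J} u j; Cmp with J', y0 l = letter of v at l.1: hh A (card J') ≥ δ0/(4(k+1)^m) - error ≥ θ for N large. -/
def FndStmt : Prop :=
  ∀ k : ℕ, 1 ≤ k → HJ k → ∀ δ0 : ℝ, 0 < δ0 → ∃ (θ : ℝ) (m : ℕ), 0 < θ ∧ θ ≤ 1 ∧ 1 ≤ m ∧ ∀ F : ℕ,
    ∃ N0 : ℕ, ∀ (ι : Type) [Fintype ι] [DecidableEq ι], N0 ≤ Fintype.card ι →
    ∀ A : (ι → Fin (k + 1)) → Prop, δ0 ≤ pr A → ∀ u : Fin m → ℕ, (∀ j, 1 ≤ u j) → ∑ j, u j ≤ F →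
    ∃ J : Finset (Fin m), J.Nonempty ∧ θ ≤ hh A (∑ j ∈ J, u j)

/-- Module Flk (Folkman's theorem). Uses: nothing. Proof. Either by compactness from Mathlib (Combinatorics/Hindman: Hindman.FS_partition_regular / exists_FS_of_finite_cover for the semigroup ℕ+): if for every F there were a bad P_F, take the ultrafilter limit P (P u iff P_F u for
F in a nontrivial ultrafilter on ℕ), Hindman gives an infinite sequence a in ℕ+ with FS a monochromatic for P; u j = a j (j < m); the finitely many values P(∑_J u) are those of P_F for some F ≥ ∑ u: contradiction. Or directly (van der Waerden from Mathlib's Hales-Jewett and induction). -/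
def FlkStmt : Prop :=
  ∀ m : ℕ, ∃ F : ℕ, ∀ P : ℕ → Prop, ∃ u : Fin m → ℕ, (∀ j, 1 ≤ u j) ∧ ∑ j, u j ≤ F ∧
    ((∀ J : Finset (Fin m), J.Nonempty → P (∑ j ∈ J, u j)) ∨
      ∀ J : Finset (Fin m), J.Nonempty → ¬ P (∑ j ∈ J, u j))

/-- Module Gsp (good subspace). Uses: Nin, Pt, Cmp, Fnd, Flk. Proof. θ, m0 from Fnd for δ0. Given γ1, m': m'' = max m' m0, F from Flk for m''. Errors: for N = card ι large e := F √(k/N) + 3 F^2/N is ≤ min(θ/24, γ1 θ/48). Apply Flk to P u = (θ ≤ hh A u): the second alternative is impossible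
by Fnd applied to the first m0 of the u j. So θ ≤ hh A (∑_J u) for all nonempty J; keep the first m' sizes. ρ = Σ j : Fin m', Fin (u j), β = fst. For y : Fin m' → Fin (k+1) consider the points pt x T (y ∘ β). For injective T the word w_{x,T} (wildcard β l at T l, letter x t elsewhere) is full and
sub w y = pt x T (y ∘ β). Z(x,T) = pr_y A(pt x T (y ∘ β)): mean ≥ pr A - e (Pt). Q(x,T) = pr_y ((∃ j, y j = last) and for all i : Fin k A(pt x T ((rp i y) ∘ β))): for y with J = {j : y j = last} nonempty the probability over (x,T) of the second condition is ≥ hh A (∑_J u) - e ≥ θ - θ/3 by Cmp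
(J' = β^{-1} J, y0 = y ∘ β). The proportion of y without the letter last is (k/(k+1))^m' ≤ 1/2. So mean Q ≥ θ/3 and pr(Q ≥ θ/6) ≥ θ/6 (Q ≤ 1). Let γ0 = γ1 θ/24 and suppose that the first alternative fails, so Z < pr A + γ0 for injective T. With p0 = pr(T not injective) ≤ e:
mean ((pr A + γ0 - Z) 1_inj) ≤ γ0 + e + p0, so pr(T injective, Z < pr A - γ1) ≤ (γ0 + 2e)/γ1 ≤ θ/24 + θ/24. As θ/6 - θ/12 - p0 > 0 there is (x,T), T injective, with Q ≥ θ/6 and Z ≥ pr A - γ1: w = w_{x,T}. -/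
def GspStmt : Prop :=
  ∀ k : ℕ, 1 ≤ k → HJ k → ∀ δ0 : ℝ, 0 < δ0 → ∃ θ : ℝ, 0 < θ ∧ θ ≤ 1 ∧ ∀ γ1 : ℝ, 0 < γ1 → ∀ m' : ℕ,
    ((k : ℝ) / (k + 1)) ^ m' ≤ 1 / 2 → ∃ N0 : ℕ, ∀ (ι : Type) [Fintype ι] [DecidableEq ι],
    N0 ≤ Fintype.card ι → ∀ A : (ι → Fin (k + 1)) → Prop, δ0 ≤ pr A →
    (∃ w : ι → Fin (k + 1) ⊕ Fin m', Ful w ∧ pr A + γ1 * θ / 24 ≤ pr (fun y => A (sub w y))) ∨
    ∃ w : ι → Fin (k + 1) ⊕ Fin m', Ful w ∧ pr A - γ1 ≤ pr (fun y => A (sub w y)) ∧
      θ / 6 ≤ pr (fun y : Fin m' → Fin (k + 1) => (∃ j, y j = Fin.last k) ∧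
        ∀ i : Fin k, A (sub w (rp i y)))

/-- Module Inc (density increment). Uses: Dim, Str, Gsp. Proof. θ from Gsp for δ0, s = δ0 θ/30, γ1 = s, γ = min s (γ1 θ/24), η = s/k. Given m: n2 ≥ the numbers of Str for all I = {l : Fin k | l ≤ i}, i : Fin k, with (m, η); m' ≥ n2, m with (k/(k+1))^m' ≤ min (1/2) s; n = N0 from Gsp. Let A have no line.
First alternative of Gsp: Dim for Fin m' (a = indicator of A ∘ sub w) gives v; cmp w v. Second: A' = A ∘ sub w, D l y = A (sub w (rp l y)) (Ins l by ins_pre). If y has a letter last and D l y for all l : Fin k then A' y is impossible: the word v j = wildcard if y j = last, letter y j otherwise, is full,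
sub v l = rp l y for l < k and sub v last = y, and cmp w v would be a line of A. So pr (A' and all D) ≤ (k/(k+1))^m' ≤ s. Suppose no full word of dimension m has density ≥ δ' := pr A + γ. For i : Fin k let B i = {D l for all l < i, not D i}, an intersection over I = {l ≤ i} of sets E l (E l = D l for l < i,
E i = not D i): Str for Fin m' and a = indicator of A': pr (A' and B i) ≤ δ' pr (B i) + η. The B i are a partition of the complement of D = {all D l}, so pr A' ≤ s + δ' (1 - pr D) + k η ≤ 2s + δ' (1 - θ/6) (pr D ≥ θ/6). With pr A' ≥ pr A - s and pr A ≥ δ0: δ0 θ/6 ≤ pr A θ/6 ≤ 3s + γ ≤ 4s, a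
contradiction to 5s = δ0 θ/6, s > 0. -/
def IncStmt : Prop :=
  ∀ k : ℕ, 1 ≤ k → HJ k → ∀ δ0 : ℝ, 0 < δ0 → ∃ γ : ℝ, 0 < γ ∧ ∀ m : ℕ, ∃ n : ℕ,
    ∀ (ι : Type) [Fintype ι] [DecidableEq ι], n ≤ Fintype.card ι →
    ∀ A : (ι → Fin (k + 1)) → Prop, δ0 ≤ pr A →
    (¬ ∃ w : ι → Fin (k + 1) ⊕ Fin 1, Ful w ∧ ∀ y, A (sub w y)) →
    ∃ w : ι → Fin (k + 1) ⊕ Fin m, Ful w ∧ pr A + γ ≤ pr (fun y => A (sub w y))

/-- Module Ite (iteration). Uses: Inc. Proof. γ from Inc for δ0 = δ. Claim(j): there is n_j such that every A with pr A ≥ δ and pr A ≥ 1 - j γ, card ι ≥ n_j, contains a line (full word of dimension 1, as in MH k+1 1). j = 0: pr A ≥ 1, A is everything, n_0 = 1, word of wildcards. j + 1: n from Inc for m = n_j. If A has no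
line, w : ι → _ ⊕ Fin n_j has pr (A ∘ sub w) ≥ pr A + γ ≥ 1 - jγ and ≥ δ, so A ∘ sub w has a line v and cmp w v is a line of A. Take j ≥ 1/γ. -/
def IteStmt : Prop :=
  ∀ k : ℕ, 1 ≤ k → HJ k → ∀ δ : ℝ, 0 < δ → ∃ n : ℕ, MH (k + 1) 1 δ n

/-- Module Fnl (interface). Uses: Bse, Mul, Ite. Proof. HJ k for all k by induction (Bse for k = 0, 1; Ite and Mul for k + 1, k ≥ 1). DhjStmt for (k, δ): k = 0: n = 1, A arbitrary, w = none everywhere (there is no i : Fin 0). k ≥ 1: n from MH k 1 δ (n ≥ 1) for ι = Fin n: δ k^n ≤ card A means δ ≤ pr (· ∈ A);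
the word w : Fin n → Fin k ⊕ Fin 1 becomes Option (Fin k) (wildcard ↦ none), and lineMap w' i = sub w (fun _ => i). -/
def FnlStmt : Prop := DhjStmt

end Pool.Agent.Lib.MP_9f2731_nt.GP.Dhj
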